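import Mathlib

/-!
# HT: orbits of `n ↦ σ(n) − 1`, definitions and elementary facts
-/

set_option autoImplicit false

open Finset

namespace Pool.Agent.Helper2.HT

/-- the map `n ↦ σ(n) − 1` -/
def f (n : ℕ) : ℕ := ArithmeticFunction.sigma 1 n - 1

/-- the largest prime factor of `n` (`0` for `n ≤ 1`) -/
def P (n : ℕ) : ℕ := n.primeFactors.sup id

/-- the cofactor `n / P(n)` -/
def cof (n : ℕ) : ℕ := n / P n

/-- the orbit of `n` reaches a prime in at most `k` steps -/
def Reach (k n : ℕ) : Prop := ∃ i ≤ k, (f^[i] n).Prime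

/-! ## the divisor sum -/

theorem sig_pos {m : ℕ} (hm : 1 ≤ m) : m ≤ ArithmeticFunction.sigma 1 m := by
  rw [ArithmeticFunction.sigma_one_apply]
  exact Finset.single_le_sum (f := fun d => d) (fun _ _ => Nat.zero_le _)
    (Nat.mem_divisors_self m (by omega))

theorem sig_ge {m : ℕ} (hm : 2 ≤ m) : m + 1 ≤ ArithmeticFunction.sigma 1 m := by
  rw [ArithmeticFunction.sigma_one_apply]
  have h1 : ({1, m} : Finset ℕ) ⊆ m.divisors := by
    intro d hd
    rw [Finset.mem_insert, Finset.mem_singleton] at hd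
    rcases hd with rfl | rfl
    · exact Nat.mem_divisors.2 ⟨one_dvd _, by omega⟩
    · exact Nat.mem_divisors_self _ (by omega)
  have h2 := Finset.sum_le_sum_of_subset (f := fun d : ℕ => d) h1
  rw [Finset.sum_pair (by omega)] at h2
  omega

theorem sig_le {m : ℕ} : ArithmeticFunction.sigma 1 m ≤ m ^ 2 := by
  rw [ArithmeticFunction.sigma_one_apply]
  calc ∑ d ∈ m.divisors, d ≤ ∑ _d ∈ m.divisors, m :=
        Finset.sum_le_sum fun d hd => Nat.divisor_le hd
    _ = m.divisors.card * m := by rw [Finset.sum_const, smul_eq_mul]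
    _ ≤ m * m := Nat.mul_le_mul_right _ (Nat.card_divisors_le_self m)
    _ = m ^ 2 := by ring

theorem sig_mul {m q : ℕ} (hq : q.Prime) (hqm : ¬ q ∣ m) :
    ArithmeticFunction.sigma 1 (m * q) = ArithmeticFunction.sigma 1 m * (q + 1) := by
  have h1 : Nat.Coprime m q := ((Nat.Prime.coprime_iff_not_dvd hq).2 hqm).symm
  rw [ArithmeticFunction.isMultiplicative_sigma.map_mul_of_coprime h1]
  congr 1
  rw [ArithmeticFunction.sigma_one_apply, hq.sum_divisors]

theorem f_mul {m q : ℕ} (hm : 1 ≤ m) (hq : q.Prime) (hqm : ¬ q ∣ m) :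
    f (m * q) = ArithmeticFunction.sigma 1 m * q + (ArithmeticFunction.sigma 1 m - 1) := by
  have h1 := sig_pos hm
  unfold f
  rw [sig_mul hq hqm, mul_add, mul_one]
  omega

theorem f_prime {p : ℕ} (hp : p.Prime) : f p = p := by
  unfold f
  rw [ArithmeticFunction.sigma_one_apply, hp.sum_divisors]
  omega

theorem le_f {n : ℕ} (hn : 2 ≤ n) : n ≤ f n := by
  have := sig_ge hn
  unfold f
  omega

/-! ## the largest prime factor -/

theorem P_mem {n : ℕ} (hn : 2 ≤ n) : P n ∈ n.primeFactors := by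
  have h1 : n.primeFactors.Nonempty := Nat.nonempty_primeFactors.2 (by omega)
  obtain ⟨q, hq, hq'⟩ := Finset.exists_mem_eq_sup n.primeFactors h1 id
  unfold P
  rw [hq']
  exact hq

theorem P_prime {n : ℕ} (hn : 2 ≤ n) : (P n).Prime := Nat.prime_of_mem_primeFactors (P_mem hn)

theorem P_dvd {n : ℕ} (hn : 2 ≤ n) : P n ∣ n := Nat.dvd_of_mem_primeFactors (P_mem hn)

theorem le_P {n p : ℕ} (hn : n ≠ 0) (hp : p.Prime) (hpn : p ∣ n) : p ≤ P n :=
  Finset.le_sup (f := id) (Nat.mem_primeFactors.2 ⟨hp, hpn, hn⟩)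

theorem cof_mul {n : ℕ} (hn : 2 ≤ n) : cof n * P n = n := Nat.div_mul_cancel (P_dvd hn)

theorem cof_pos {n : ℕ} (hn : 2 ≤ n) : 1 ≤ cof n := by
  have h1 := cof_mul hn
  rcases Nat.eq_zero_or_pos (cof n) with h | h
  · rw [h] at h1
    omega
  · exact h

theorem cof_le {n : ℕ} : cof n ≤ n := Nat.div_le_self _ _

theorem cof_ge {n : ℕ} (hn : 2 ≤ n) (hnp : ¬ n.Prime) : 2 ≤ cof n := by
  have h1 := cof_mul hn
  have h2 := cof_pos hn
  by_contra h
  have h3 : cof n = 1 := by omega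
  rw [h3, one_mul] at h1
  exact hnp (h1 ▸ P_prime hn)

/-- if `q` is a prime larger than `m`, then `P (m q) = q` -/
theorem P_mul {m q : ℕ} (hm : 1 ≤ m) (hq : q.Prime) (hmq : m < q) : P (m * q) = q := by
  refine le_antisymm ?_ (le_P (Nat.mul_pos (by omega) hq.pos).ne' hq (dvd_mul_left _ _))
  unfold P
  refine Finset.sup_le fun p hp => ?_
  have hpp := Nat.prime_of_mem_primeFactors hp
  rcases (Nat.Prime.dvd_mul hpp).1 (Nat.dvd_of_mem_primeFactors hp) with h | h
  · exact (Nat.le_of_dvd (by omega) h).trans hmq.le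
  · exact Nat.le_of_dvd hq.pos h

theorem cof_mul' {m q : ℕ} (hm : 1 ≤ m) (hq : q.Prime) (hmq : m < q) : cof (m * q) = m := by
  unfold cof
  rw [P_mul hm hq hmq]
  exact Nat.mul_div_cancel _ hq.pos

end Pool.Agent.Helper2.HT
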