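import Pool.Agent.Helper2.HT.T3

set_option autoImplicit false

open Filter Finset

namespace Pool.Agent.Helper2.HT

open Pool.Agent.Helper44.TOT

noncomputable section

/-- two steps: the `n ≤ x` with `f (f n)` prime and cofactor product at most `x exp (- V)` -/
theorem t3c (A : ℕ) : ∃ C X0 : ℕ, ∀ x : ℕ, X0 ≤ x → ∀ S : Finset ℕ,
    (∀ n ∈ S, 2 ≤ n ∧ n ≤ x ∧ ¬ n.Prime ∧ ¬ (f n).Prime ∧ (f (f n)).Prime ∧
      ((cof n : ℝ) * cof (f n) ≤ x * Real.exp (-(Real.log x / (ll x) ^ A)))) →
    (S.card : ℝ) ≤ x * (ll x) ^ C / Real.log x := by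
  obtain ⟨C, X1, hm3⟩ := t3m A
  obtain ⟨X2, hev⟩ := eventually_atTop.1 (ev_main A 100)
  refine ⟨3 * C + 1, max X1 X2, fun x hx S hS => ?_⟩
  have hx1 : X1 ≤ x := (le_max_left _ _).trans hx
  obtain ⟨hs100, hs2, hL100, hV1, hx2⟩ := hev x ((le_max_right _ _).trans hx)
  set s : ℝ := ll x with hs
  set L : ℝ := Real.log x with hL
  set V : ℝ := L / s ^ A with hV
  have hx0 : (0 : ℝ) < x := by
    have : 0 < x := by omega
    exact_mod_cast this
  have hL0 : 0 < L := by linarith
  have hs0 : 0 < s := by linarith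
  have hV0 : 0 < V := by nlinarith
  have hsL : L = Real.exp s := by
    have : s = Real.log L := rfl
    rw [this, Real.exp_log hL0]
  -- small `n`
  set S0 := S.filter (fun n : ℕ => (n : ℝ) ≤ x * Real.exp (-V / 2)) with hS0
  set S1 := S.filter (fun n : ℕ => ¬ (n : ℝ) ≤ x * Real.exp (-V / 2)) with hS1
  set S2 := S1.filter (fun n => P n ∣ cof n) with hS2
  set S3 := S1.filter (fun n => ¬ P n ∣ cof n) with hS3
  have hsp1 : S.card = S0.card + S1.card := (Finset.card_filter_add_card_filter_not _).symm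
  have hsp2 : S1.card = S2.card + S3.card := (Finset.card_filter_add_card_filter_not _).symm
  have hc0 : (S0.card : ℝ) ≤ x * Real.exp (-V / 2) := by
    have h1 : S0 ⊆ Finset.Icc 1 ⌊x * Real.exp (-V / 2)⌋₊ := by
      intro n hn
      rw [hS0, Finset.mem_filter] at hn
      rw [Finset.mem_Icc]
      exact ⟨by have := (hS n hn.1).1; omega, Nat.le_floor hn.2⟩
    have h2 := Finset.card_le_card h1
    rw [Nat.card_Icc, Nat.add_sub_cancel] at h2
    have h3 : (⌊x * Real.exp (-V / 2)⌋₊ : ℝ) ≤ x * Real.exp (-V / 2) := Nat.floor_le (by positivity)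
    have h4 : (S0.card : ℝ) ≤ (⌊x * Real.exp (-V / 2)⌋₊ : ℝ) := by exact_mod_cast h2
    exact h4.trans h3
  have hS1mem : ∀ n ∈ S1, n ∈ S ∧ x * Real.exp (-V / 2) < n := by
    intro n hn
    rw [hS1, Finset.mem_filter] at hn
    exact ⟨hn.1, not_le.1 hn.2⟩
  have hfge : ∀ n ∈ S, 2 ≤ f n := fun n hn => (hS n hn).1.trans (le_f (hS n hn).1)
  have hcf : ∀ n ∈ S, 2 ≤ cof (f n) := fun n hn => cof_ge (hfge n hn) (hS n hn).2.2.2.1
  have hcn : ∀ n ∈ S, 2 ≤ cof n := fun n hn => cof_ge (hS n hn).1 (hS n hn).2.2.1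
  have hcle : ∀ n ∈ S, (cof n : ℝ) ≤ x * Real.exp (-V) := by
    intro n hn
    have h1 := (hS n hn).2.2.2.2.2
    have h2 : (1 : ℝ) ≤ cof (f n) := by
      have : 1 ≤ cof (f n) := by have := hcf n hn; omega
      exact_mod_cast this
    have h3 : (0 : ℝ) ≤ cof n := Nat.cast_nonneg _
    nlinarith
  have hP1 : ∀ n ∈ S1, Real.exp (V / 2) ≤ P n := by
    intro n hn
    obtain ⟨hnS, hnx⟩ := hS1mem n hn
    by_contra hcon
    push Not at hcon
    have h1 : (cof n : ℝ) * P n ≤ (x * Real.exp (-V)) * Real.exp (V / 2) := by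
      have := hcle n hnS
      gcongr
    have h2 : (x * Real.exp (-V)) * Real.exp (V / 2) = x * Real.exp (-V / 2) := by
      rw [mul_assoc, ← Real.exp_add]
      congr 2
      ring
    have h3 : ((cof n * P n : ℕ) : ℝ) = n := by rw [cof_mul (hS n hnS).1]
    push_cast at h3
    linarith
  have hexp3 : (2 : ℝ) ≤ Real.exp (V / 2) := by
    have := Real.add_one_le_exp (V / 2)
    nlinarith
  have hc2 : (S2.card : ℝ) ≤ 2 * x * Real.exp (-V / 2) := by
    have h1 := Pool.Agent.Helper40.TOT.squares x (Real.exp (V / 2)) S2 hexp3 hx0.le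
      (by
        intro n hn
        rw [hS2, Finset.mem_filter] at hn
        obtain ⟨hnS, -⟩ := hS1mem n hn.1
        refine ⟨by have := (hS n hnS).1; omega, by exact_mod_cast (hS n hnS).2.1, P n,
          P_prime (hS n hnS).1, hP1 n hn.1, ?_⟩
        have h2 : P n * P n ∣ cof n * P n := Nat.mul_dvd_mul hn.2 dvd_rfl
        rw [cof_mul (hS n hnS).1, ← sq] at h2
        exact h2)
    refine h1.trans (le_of_eq ?_)
    have : -V / 2 = -(V / 2) := by ring
    rw [this, Real.exp_neg]
    ring
  -- the main part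
  have hc3 : (S3.card : ℝ) ≤ x * (1 + L) * ((1 + L) * (s ^ C / L) ^ 3 + 3 * Real.exp (-V / 2)) := by
    have hsub : S3 ⊆ (Finset.Icc 1 x).biUnion (fun m => S3.filter (fun n => cof n = m)) := by
      intro n hn
      have hnS : n ∈ S := (hS1mem n (Finset.mem_filter.1 hn).1).1
      rw [Finset.mem_biUnion]
      refine ⟨cof n, ?_, Finset.mem_filter.2 ⟨hn, rfl⟩⟩
      rw [Finset.mem_Icc]
      exact ⟨by have := hcn n hnS; omega, cof_le.trans (hS n hnS).2.1⟩
    have hcm : ∀ m ∈ Finset.Icc 1 x, ((S3.filter (fun n => cof n = m)).card : ℝ) ≤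
        (x : ℝ) * (1 / (m : ℝ)) * ((1 + L) * (s ^ C / L) ^ 3 + 3 * Real.exp (-V / 2)) := by
      intro m hm
      rw [Finset.mem_Icc] at hm
      have hm0 : (0 : ℝ) < m := by
        have : 0 < m := by omega
        exact_mod_cast this
      rcases (S3.filter (fun n => cof n = m)).eq_empty_or_nonempty with he | ⟨n0, hn0⟩
      · rw [he, Finset.card_empty, Nat.cast_zero]
        positivity
      · have hn01 := (Finset.mem_filter.1 hn0).1
        have hn02 : cof n0 = m := (Finset.mem_filter.1 hn0).2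
        have hn0S : n0 ∈ S := (hS1mem n0 (Finset.mem_filter.1 hn01).1).1
        have hm2 : 2 ≤ m := hn02 ▸ hcn n0 hn0S
        have hinj : Set.InjOn P (S3.filter (fun n => cof n = m)) := by
          intro n hn n' hn' h
          have hn1 := Finset.mem_filter.1 hn
          have hn1' := Finset.mem_filter.1 hn'
          have hnS : n ∈ S := (hS1mem n (Finset.mem_filter.1 hn1.1).1).1
          have hnS' : n' ∈ S := (hS1mem n' (Finset.mem_filter.1 hn1'.1).1).1
          rw [← cof_mul (hS n hnS).1, ← cof_mul (hS n' hnS').1, h, hn1.2, hn1'.2]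
        have h1 := hm3 x hx1 m ((S3.filter (fun n => cof n = m)).image P) hm2 hm.2
          (by
            intro q hq
            rw [Finset.mem_image] at hq
            obtain ⟨n, hn, rfl⟩ := hq
            have hn1 := Finset.mem_filter.1 hn
            have hn2 := Finset.mem_filter.1 hn1.1
            obtain ⟨hnS, hnx⟩ := hS1mem n hn2.1
            have hnd : ¬ P n ∣ m := by
              have := hn2.2
              rwa [hn1.2] at this
            have hfac : m * P n = n := by
              have := cof_mul (hS n hnS).1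
              rwa [hn1.2] at this
            have hf := f_mul (m := m) (q := P n) hm.1 (P_prime (hS n hnS).1) hnd
            rw [hfac] at hf
            rw [← hf]
            refine ⟨P_prime (hS n hnS).1, ?_, (hS n hnS).2.2.2.1, (hS n hnS).2.2.2.2.1, ?_, ?_⟩
            · rw [hfac]
              exact (hS n hnS).2.1
            · have := (hS n hnS).2.2.2.2.2
              rwa [hn1.2] at this
            · have h2 : (m : ℝ) * P n = n := by exact_mod_cast hfac
              rw [h2]
              exact hnx)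
        rw [Finset.card_image_of_injOn hinj] at h1
        rw [mul_one_div]
        exact h1
    have h2 : S3.card ≤ ∑ m ∈ Finset.Icc 1 x, (S3.filter (fun n => cof n = m)).card :=
      (Finset.card_le_card hsub).trans Finset.card_biUnion_le
    have h3 : (S3.card : ℝ) ≤
        ((∑ m ∈ Finset.Icc 1 x, (S3.filter (fun n => cof n = m)).card : ℕ) : ℝ) := by
      exact_mod_cast h2
    refine h3.trans ?_
    rw [Nat.cast_sum]
    refine (Finset.sum_le_sum hcm).trans ?_
    rw [← Finset.sum_mul, ← Finset.mul_sum]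
    have h4 := harm_le x
    gcongr
  -- final estimate
  have hE : Real.exp (-V / 2) ≤ 1 / L ^ 2 := by
    have h1 : 1 / L ^ 2 = Real.exp (-(2 * s)) := by
      rw [hsL, one_div, ← Real.exp_nat_mul, ← Real.exp_neg]
      congr 1
    rw [h1]
    exact Real.exp_le_exp.2 (by linarith)
  have hsC : (1 : ℝ) ≤ s ^ (3 * C) := one_le_pow₀ (by linarith)
  have hLL : 1 / L ^ 2 ≤ s ^ (3 * C) / L ^ 2 := by gcongr
  have hkey : (S.card : ℝ) ≤ x * (s ^ (3 * C) / L) * 13 := by
    have h1 : (S.card : ℝ) = S0.card + S2.card + S3.card := by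
      have : S.card = S0.card + S2.card + S3.card := by omega
      exact_mod_cast this
    have hE' : Real.exp (-V / 2) ≤ s ^ (3 * C) / L ^ 2 := hE.trans hLL
    have h2 : Real.exp (-V / 2) ≤ s ^ (3 * C) / L := by
      refine hE'.trans ?_
      have : L ≤ L ^ 2 := by nlinarith
      gcongr
    have h3 : (1 + L) * ((1 + L) * (s ^ C / L) ^ 3 + 3 * Real.exp (-V / 2)) ≤
        10 * (s ^ (3 * C) / L) := by
      have h4 : (1 + L) ≤ 2 * L := by linarith
      have h5 : (s ^ C / L) ^ 3 = s ^ (3 * C) / L ^ 3 := by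
        rw [div_pow, ← pow_mul, mul_comm C 3]
      rw [h5]
      calc (1 + L) * ((1 + L) * (s ^ (3 * C) / L ^ 3) + 3 * Real.exp (-V / 2))
          ≤ (2 * L) * ((2 * L) * (s ^ (3 * C) / L ^ 3) + 3 * (s ^ (3 * C) / L ^ 2)) := by gcongr
        _ = 10 * (s ^ (3 * C) / L) := by
            field_simp
            ring
    have h6 : x * (1 + L) * ((1 + L) * (s ^ C / L) ^ 3 + 3 * Real.exp (-V / 2)) ≤
        x * (10 * (s ^ (3 * C) / L)) := by
      rw [mul_assoc]
      exact mul_le_mul_of_nonneg_left h3 hx0.le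
    have h7 : x * Real.exp (-V / 2) ≤ x * (s ^ (3 * C) / L) := mul_le_mul_of_nonneg_left h2 hx0.le
    rw [h1]
    linarith
  refine hkey.trans ?_
  have : x * (s ^ (3 * C) / L) * 13 = x * (13 * s ^ (3 * C)) / L := by ring
  rw [this, pow_succ, mul_comm (s ^ (3 * C)) s]
  have h8 : 13 * s ^ (3 * C) ≤ s * s ^ (3 * C) := by gcongr; linarith
  gcongr

end

end Pool.Agent.Helper2.HT
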