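import Pool.Agent.Helper2.HT.S3
import Pool.Agent.Helper65.TOT.Smooth

set_option autoImplicit false

open Filter Finset

namespace Pool.Agent.Helper2.HT

open Pool.Agent.Helper44.TOT

noncomputable section

/-- the numbers `a q + (a - 1)` and Brun-Titchmarsh for them -/
theorem t4b_bt : ∃ X0 : ℕ, ∀ x : ℕ, X0 ≤ x → ∀ m : ℕ, 2 ≤ m → (m : ℝ) ≤ (x : ℝ) ^ ((1 : ℝ) / 100) →
    ∀ (d : ℕ) (T : Finset ℕ), 1 ≤ d → (d : ℝ) ≤ (x : ℝ) ^ ((9 : ℝ) / 10) →
    (∀ q ∈ T, q ≤ x / m ∧ q.Prime ∧ √(x : ℝ) < q ∧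
      d ∣ ArithmeticFunction.sigma 1 m * q + (ArithmeticFunction.sigma 1 m - 1)) →
    (T.card : ℝ) ≤ 240 * ((x : ℝ) / m) / Real.log x / d.totient := by
  refine ⟨2 ^ 80, fun x hx m hm hmx d T hd1 hdx hT => ?_⟩
  have hx1 : 1 ≤ x := le_trans (by norm_num) hx
  have hxR1 : (1 : ℝ) ≤ x := by exact_mod_cast hx1
  have hx0 : (0 : ℝ) < x := by linarith
  have hm0 : (0 : ℝ) < m := by
    have : 0 < m := by omega
    exact_mod_cast this
  have hd0 : (0 : ℝ) < d := by exact_mod_cast hd1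
  have hφ0 : (0 : ℝ) < d.totient := by exact_mod_cast Nat.totient_pos.2 hd1
  have hxR : (2 : ℝ) ^ 80 ≤ x := by exact_mod_cast hx
  have hlog0 : 0 < Real.log x := by
    refine Real.log_pos (lt_of_lt_of_le (by norm_num) hxR)
  rcases T.eq_empty_or_nonempty with rfl | hTne
  · rw [Finset.card_empty, Nat.cast_zero]
    positivity
  set a := ArithmeticFunction.sigma 1 m with ha
  have ha1 : m + 1 ≤ a := sig_ge hm
  set q0 := T.min' hTne with hq0
  have hq0T : q0 ∈ T := Finset.min'_mem T hTne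
  obtain ⟨hq0X, hq0p, hq0s, hq0d⟩ := hT q0 hq0T
  have hcop : Nat.Coprime d a := by
    have h1 : Nat.gcd d a ∣ 1 := by
      have h2 : Nat.gcd d a ∣ a * q0 + (a - 1) := (Nat.gcd_dvd_left d a).trans hq0d
      have h3 : Nat.gcd d a ∣ a * (q0 + 1) := (Nat.gcd_dvd_right d a).mul_right _
      have h4 : a * (q0 + 1) = (a * q0 + (a - 1)) + 1 := by
        rw [mul_add, mul_one]
        omega
      rw [h4] at h3
      exact (Nat.dvd_add_right h2).1 h3
    exact Nat.dvd_one.1 h1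
  have hpar : ∀ q ∈ T, ∃ t : ℕ, q = q0 + d * t ∧ t < (x / m) / d + 1 := by
    intro q hq
    obtain ⟨hqX, hqp, hqs, hqd⟩ := hT q hq
    have hle : q0 ≤ q := Finset.min'_le T q hq
    obtain ⟨e, rfl⟩ := Nat.exists_eq_add_of_le hle
    have h1 : d ∣ a * e := by
      have h2 : a * (q0 + e) + (a - 1) = (a * q0 + (a - 1)) + a * e := by ring
      rw [h2] at hqd
      exact (Nat.dvd_add_right hq0d).1 hqd
    have h2 : d ∣ e := (Nat.Coprime.dvd_mul_left hcop).1 h1
    obtain ⟨t, rfl⟩ := h2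
    refine ⟨t, rfl, Nat.lt_succ_of_le ?_⟩
    rw [Nat.le_div_iff_mul_le (by omega)]
    calc t * d = d * t := mul_comm _ _
      _ ≤ q0 + d * t := Nat.le_add_left _ _
      _ ≤ x / m := hqX
  choose! t ht1 ht2 using hpar
  have hinj : Set.InjOn t T := by
    intro q1 h1 q2 h2 h12
    rw [ht1 q1 h1, ht1 q2 h2, h12]
  have hcard : (T.image t).card = T.card := Finset.card_image_of_injOn hinj
  -- the sieving level
  set y : ℝ := (x : ℝ) ^ ((1 : ℝ) / 80) with hy
  have hy2 : 2 ≤ y := by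
    have h1 : ((2 : ℝ) ^ 80) ^ ((1 : ℝ) / 80) ≤ (x : ℝ) ^ ((1 : ℝ) / 80) :=
      Real.rpow_le_rpow (by positivity) hxR (by norm_num)
    have h2 : ((2 : ℝ) ^ 80) ^ ((1 : ℝ) / 80) = 2 := by
      rw [← Real.rpow_natCast, ← Real.rpow_mul (by norm_num)]
      norm_num
    rw [h2] at h1
    exact h1
  have hlogy : Real.log y = 1 / 80 * Real.log x := Real.log_rpow hx0 _
  set z : ℕ := ⌊y ^ 2⌋₊ with hz
  have hzle : (z : ℝ) ≤ y ^ 2 := Nat.floor_le (by positivity)
  have hzgt : y ^ 2 < (z : ℝ) + 1 := Nat.lt_floor_add_one _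
  have hyz : y ≤ z := by nlinarith
  have hz2 : 2 ≤ z := by
    have : (2 : ℝ) ≤ z := hy2.trans hyz
    exact_mod_cast this
  have hlogz : 1 / 80 * Real.log x ≤ Real.log z := by
    rw [← hlogy]
    exact Real.log_le_log (by linarith) hyz
  have hlogz0 : 0 < Real.log z := lt_of_lt_of_le (by positivity) hlogz
  have hypow : ∀ k : ℕ, y ^ k = (x : ℝ) ^ ((k : ℝ) / 80) := by
    intro k
    rw [hy, ← Real.rpow_natCast, ← Real.rpow_mul hx0.le]
    congr 1
    ring
  have hzs : (z : ℝ) ≤ √(x : ℝ) := by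
    refine hzle.trans ?_
    rw [hypow 2, Real.sqrt_eq_rpow]
    exact Real.rpow_le_rpow_of_exponent_le hxR1 (by norm_num)
  -- the quotient `x / (m d)`
  set Y : ℝ := (x : ℝ) / m / d with hY
  have hYlow : (x : ℝ) ^ ((9 : ℝ) / 100) ≤ Y := by
    rw [hY, le_div_iff₀ hd0, le_div_iff₀ hm0]
    calc (x : ℝ) ^ ((9 : ℝ) / 100) * d * m
        ≤ (x : ℝ) ^ ((9 : ℝ) / 100) * (x : ℝ) ^ ((9 : ℝ) / 10) * (x : ℝ) ^ ((1 : ℝ) / 100) := by
          gcongr
      _ = x := by
          rw [← Real.rpow_add hx0, ← Real.rpow_add hx0]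
          norm_num
  have hz3 : (z : ℝ) ^ 3 ≤ Y := by
    refine le_trans ?_ hYlow
    calc (z : ℝ) ^ 3 ≤ (y ^ 2) ^ 3 := by gcongr
      _ = y ^ 6 := by ring
      _ = (x : ℝ) ^ ((6 : ℕ) / 80 : ℝ) := hypow 6
      _ ≤ (x : ℝ) ^ ((9 : ℝ) / 100) :=
          Real.rpow_le_rpow_of_exponent_le hxR1 (by norm_num)
  have hY1 : 1 ≤ Y := by
    refine le_trans ?_ hYlow
    exact Real.one_le_rpow hxR1 (by norm_num)
  have hXd : (((x / m) / d + 1 : ℕ) : ℝ) ≤ Y + 1 := by
    push_cast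
    have h1 : ((x / m / d : ℕ) : ℝ) ≤ ((x / m : ℕ) : ℝ) / d := Nat.cast_div_le
    have h2 : ((x / m : ℕ) : ℝ) ≤ (x : ℝ) / m := Nat.cast_div_le
    have h3 : ((x / m : ℕ) : ℝ) / d ≤ Y := by
      rw [hY]
      gcongr
    linarith
  -- the sieve
  have hsieve := hSF {(d, q0)} d ((x / m) / d + 1) z ⟨(d, q0), by simp⟩ hd1 hz2
    (by
      intro l hl hl1
      rw [Finset.card_singleton] at hl1
      exact absurd hl.two_le (by omega))
    (by
      intro g hg l _ hlg
      rw [Finset.mem_singleton] at hg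
      subst hg
      exact hlg)
    (by
      intro g1 h1 g2 h2 h12
      rw [Finset.mem_singleton] at h1 h2
      exact absurd (h1.trans h2.symm) h12)
    (T.image t)
    (by
      intro s hs
      rw [Finset.mem_image] at hs
      obtain ⟨q, hq, rfl⟩ := hs
      refine ⟨ht2 q hq, fun g hg l hl hlz hdvd => ?_⟩
      rw [Finset.mem_singleton] at hg
      subst hg
      obtain ⟨hqX, hqp, hqs, hqd⟩ := hT q hq
      have h1 : d * t q + q0 = q := by
        have := ht1 q hq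
        omega
      have h2 : l ∣ q := by
        have h3 : l ∣ d * t q + q0 := hdvd
        rwa [h1] at h3
      have h4 : l = q := (Nat.prime_dvd_prime_iff_eq hl hqp).1 h2
      have h5 : (q : ℝ) ≤ z := by
        rw [← h4]
        exact_mod_cast hlz
      linarith)
  rw [hcard, Finset.card_singleton, pow_one, Nat.cast_one, one_mul] at hsieve
  calc (T.card : ℝ) ≤ ((((x / m) / d + 1 : ℕ) : ℝ) + (z : ℝ) ^ 3) *
        ((d : ℝ) / ((d.totient : ℝ) * Real.log z)) := hsieve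
    _ ≤ (3 * Y) * ((d : ℝ) / ((d.totient : ℝ) * (1 / 80 * Real.log x))) := by
        gcongr
        linarith
    _ = 240 * ((x : ℝ) / m) / Real.log x / d.totient := by
        rw [hY]
        field_simp
        ring

/-- a smooth number is its smooth part -/
theorem t4b_wlow {w : ℝ} {n : ℕ} (hn : 1 ≤ n) (h : (P n : ℝ) < w) : wlow w n = Real.log n := by
  have h1 : wlow w n = ∑ q ∈ n.primeFactors, (n.factorization q : ℝ) * Real.log q := by
    unfold wlow
    refine Finset.sum_congr rfl fun q hq => ?_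
    have hq1 : q ≤ P n := le_P (by omega) (Nat.prime_of_mem_primeFactors hq)
      (Nat.dvd_of_mem_primeFactors hq)
    have hq2 : (q : ℝ) < w := lt_of_le_of_lt (by exact_mod_cast hq1) h
    rw [if_pos hq2]
  have h2 : ∏ q ∈ n.primeFactors, q ^ n.factorization q = n :=
    Nat.prod_factorization_pow_eq_self (by omega)
  rw [h1]
  conv_rhs => rw [← h2]
  rw [Nat.cast_prod, Real.log_prod]
  · refine Finset.sum_congr rfl fun q _ => ?_
    rw [Nat.cast_pow, Real.log_pow]
  · intro q hq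
    have : q ≠ 0 := (Nat.prime_of_mem_primeFactors hq).ne_zero
    exact_mod_cast pow_ne_zero _ this

/-- PIECE T4b. PROOF. Fix `m`, put `a = σ(m) ≤ m ^ 2`, `X = x / m ≥ x ^ (99/100)`,
`N q = a q + (a - 1)`. (i) BRUN-TITCHMARSH: for `1 ≤ d ≤ x ^ (9/10)` the number of primes `q ≤ X`
with `d ∣ N q` is at most `C_B (x / m) / (φ(d) log x)`, `C_B` absolute: `d` is prime to `a`, so `q`
lies in one residue class `c` mod `d` (`c < d`), `q = c + d t`, `t ≤ X / d`, and `hSF` (SieveForms) with the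
single form `(d, c)`, `Q = d`, interval `X / d + 1`, `z` about `(X / d) ^ (1/3) ≥ x ^ (1/40)`
(the values `q ≤ z` are at most `z` many) gives `≤ 2 (X / d) (d / φ(d)) / log z`. (ii) Now
`Pool.Agent.Helper65.TOT.smooth Pool.Agent.Helper91.TOT.logSum` (with `A = 1`) for the set of the
values `N q`, `D = C_B (x / m) / log x`, `u = u0`, `η = 1 / 20`: if `q > √x` and `P (N q) < x ^ u0`
then `wlow (x ^ u0) (N q) = log (N q) ≥ (log x) / 2 > η log x`. So the number is at most
`C7 C_B exp (- 1 / (20 u0)) (x / m) / log x`; choose `u0` with `C7 C_B exp (- 1 / (20 u0)) ≤ ε`. -/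
theorem t4b : ∀ ε : ℝ, 0 < ε → ∃ u0 : ℝ, 0 < u0 ∧ u0 ≤ 1 / 40 ∧ ∃ X0 : ℕ, ∀ x : ℕ, X0 ≤ x →
    ∀ m : ℕ, 2 ≤ m → (m : ℝ) ≤ (x : ℝ) ^ ((1 : ℝ) / 100) →
    (((Icc 1 (x / m)).filter (fun q : ℕ => q.Prime ∧ √(x : ℝ) < q ∧
      (P (ArithmeticFunction.sigma 1 m * q + (ArithmeticFunction.sigma 1 m - 1)) : ℝ) <
        (x : ℝ) ^ u0)).card : ℝ) ≤ ε * ((x : ℝ) / m) / Real.log x := by
  intro ε hε
  obtain ⟨C7, hC7, hsm⟩ := Pool.Agent.Helper65.TOT.smooth Pool.Agent.Helper91.TOT.logSum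
  obtain ⟨X1, hX1⟩ := hsm 1
  obtain ⟨X2, hX2⟩ := t4b_bt
  set K : ℝ := max 2 (Real.log (240 * C7 / ε)) with hK
  have hK2 : 2 ≤ K := le_max_left _ _
  have hK0 : 0 < K := by linarith
  have hKexp : C7 * 240 * Real.exp (-K) ≤ ε := by
    have h1 : 240 * C7 / ε ≤ Real.exp K := by
      rw [← Real.log_le_iff_le_exp (by positivity)]
      exact le_max_right _ _
    rw [div_le_iff₀ hε] at h1
    rw [Real.exp_neg, ← div_eq_mul_inv, div_le_iff₀ (Real.exp_pos K)]
    linarith
  have hu0 : 0 < 1 / (20 * K) := by positivity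
  have hu1 : 1 / (20 * K) ≤ 1 / 40 := by
    rw [div_le_div_iff₀ (by positivity) (by norm_num)]
    linarith
  have hev : ∀ᶠ x : ℕ in atTop, 20 * K ≤ ll x ∧ X1 ≤ x ∧ X2 ≤ x ∧ 2 ≤ x :=
    (tll.eventually_ge_atTop _).and ((eventually_ge_atTop _).and
      ((eventually_ge_atTop _).and (eventually_ge_atTop _)))
  obtain ⟨X0, hX0⟩ := eventually_atTop.1 hev
  refine ⟨1 / (20 * K), hu0, hu1, X0, fun x hx m hm hmx => ?_⟩
  obtain ⟨hll, hx1, hx2, hx3⟩ := hX0 x hx
  set a := ArithmeticFunction.sigma 1 m with ha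
  have ha1 : m + 1 ≤ a := sig_ge hm
  have hxR1 : (1 : ℝ) ≤ x := by
    have : 1 ≤ x := by omega
    exact_mod_cast this
  have hx0 : (0 : ℝ) < x := by linarith
  have hlog0 : 0 < Real.log x := by
    refine Real.log_pos ?_
    have : 1 < x := by omega
    exact_mod_cast this
  have hinj : Function.Injective (fun q : ℕ => a * q + (a - 1)) := by
    intro q1 q2 h12
    have h1 : a * q1 + (a - 1) = a * q2 + (a - 1) := h12
    have h2 : a * q1 = a * q2 := by omega
    exact Nat.eq_of_mul_eq_mul_left (by omega) h2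
  set B : Finset ℕ := (Icc 1 (x / m)).filter (fun q : ℕ => q.Prime ∧ √(x : ℝ) < q) with hB
  set B' : Finset ℕ := (Icc 1 (x / m)).filter (fun q : ℕ => q.Prime ∧ √(x : ℝ) < q ∧
      (P (a * q + (a - 1)) : ℝ) < (x : ℝ) ^ (1 / (20 * K))) with hB'
  have hB'B : B' ⊆ B := by
    intro q hq
    rw [hB', Finset.mem_filter] at hq
    rw [hB, Finset.mem_filter]
    exact ⟨hq.1, hq.2.1, hq.2.2.1⟩
  have hmain := hX1 x (B.image (fun q : ℕ => a * q + (a - 1)))
    (240 * ((x : ℝ) / m) / Real.log x) (1 / (20 * K)) (1 / 20)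
    (B'.image (fun q : ℕ => a * q + (a - 1))) hx1 (by positivity)
    (by
      intro n hn
      rw [Finset.mem_image] at hn
      obtain ⟨q, _, rfl⟩ := hn
      show 1 ≤ a * q + (a - 1)
      omega)
    (by
      intro d S hd1 hdx hSN hSd
      have h1 : S = (B.filter (fun q : ℕ => a * q + (a - 1) ∈ S)).image
          (fun q : ℕ => a * q + (a - 1)) := by
        ext n
        rw [Finset.mem_image]
        constructor
        · intro hn
          obtain ⟨q, hq, hqn⟩ := Finset.mem_image.1 (hSN hn)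
          refine ⟨q, Finset.mem_filter.2 ⟨hq, ?_⟩, hqn⟩
          have hqn' : a * q + (a - 1) = n := hqn
          rw [hqn']
          exact hn
        · rintro ⟨q, hq, rfl⟩
          exact (Finset.mem_filter.1 hq).2
      have h2 : S.card = (B.filter (fun q : ℕ => a * q + (a - 1) ∈ S)).card := by
        conv_lhs => rw [h1]
        exact Finset.card_image_of_injective _ hinj
      rw [h2]
      refine hX2 x hx2 m hm hmx d _ hd1 hdx ?_
      intro q hq
      rw [Finset.mem_filter, hB, Finset.mem_filter, Finset.mem_Icc] at hq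
      exact ⟨hq.1.1.2, hq.1.2.1, hq.1.2.2, hSd _ hq.2⟩)
    (by
      rw [pow_one]
      exact one_div_le_one_div_of_le (by positivity) hll)
    hu1
    (hu1.trans (by norm_num)) le_rfl (Finset.image_subset_image hB'B)
    (by
      intro n hn
      rw [Finset.mem_image] at hn
      obtain ⟨q, hq, rfl⟩ := hn
      rw [hB', Finset.mem_filter] at hq
      have h1 : 1 ≤ a * q + (a - 1) := by omega
      rw [t4b_wlow h1 hq.2.2.2]
      have h2 : q ≤ a * q + (a - 1) := by
        have : q ≤ a * q := Nat.le_mul_of_pos_left q (by omega)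
        omega
      have h3 : √(x : ℝ) ≤ ((a * q + (a - 1) : ℕ) : ℝ) := by
        have h4 : (q : ℝ) ≤ ((a * q + (a - 1) : ℕ) : ℝ) := by exact_mod_cast h2
        linarith [hq.2.2.1]
      have h5 := Real.log_le_log (Real.sqrt_pos.2 hx0) h3
      rw [Real.log_sqrt hx0.le] at h5
      linarith)
  rw [Finset.card_image_of_injective _ hinj] at hmain
  refine hmain.trans ?_
  have h1 : (1 : ℝ) / 20 / (1 / (20 * K)) = K := by
    field_simp
  rw [h1]
  have hm0 : (0 : ℝ) < m := by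
    have : 0 < m := by omega
    exact_mod_cast this
  calc C7 * (240 * ((x : ℝ) / m) / Real.log x) * Real.exp (-K)
      = (C7 * 240 * Real.exp (-K)) * (((x : ℝ) / m) / Real.log x) := by ring
    _ ≤ ε * (((x : ℝ) / m) / Real.log x) := by gcongr
    _ = ε * ((x : ℝ) / m) / Real.log x := by ring

end

end Pool.Agent.Helper2.HT
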