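import Pool.Agent.Helper2.HT.Df

set_option autoImplicit false

open Filter Finset

namespace Pool.Agent.Helper2.HT

noncomputable section

private lemma t4c_ev : ∃ X0 : ℕ, ∀ x : ℕ, X0 ≤ x → 2 ≤ x ∧
    Real.log x ≤ (1 / 25) * (x : ℝ) ^ (1 / 4 : ℝ) := by
  have h1 := (isLittleO_log_rpow_atTop (show (0 : ℝ) < 1 / 4 by norm_num)).def
    (show (0 : ℝ) < 1 / 25 by norm_num)
  have h2 := tendsto_natCast_atTop_atTop (R := ℝ) |>.eventually h1
  obtain ⟨X0, hX0⟩ := (h2.and (eventually_ge_atTop 2)).exists_forall_of_atTop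
  refine ⟨X0, fun x hx => ⟨(hX0 x hx).2, ?_⟩⟩
  have h3 := (hX0 x hx).1
  rw [Real.norm_eq_abs, Real.norm_eq_abs,
    abs_of_nonneg (Real.rpow_nonneg (Nat.cast_nonneg x) _)] at h3
  exact (le_abs_self _).trans h3

private lemma t4c_card (s n : ℕ) :
    (Nat.primeCounting n : ℝ) - s ≤ (((Ioc s n).filter Nat.Prime).card : ℝ) := by
  have h1 : (range (n + 1)).filter Nat.Prime ⊆ (Ioc s n).filter Nat.Prime ∪ Icc 1 s := by
    intro q hq
    rw [Finset.mem_filter, Finset.mem_range] at hq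
    rw [Finset.mem_union, Finset.mem_filter, Finset.mem_Ioc, Finset.mem_Icc]
    by_cases h : s < q
    · exact Or.inl ⟨⟨h, by omega⟩, hq.2⟩
    · exact Or.inr ⟨hq.2.one_lt.le, by omega⟩
  have h2 := (Finset.card_le_card h1).trans (Finset.card_union_le _ _)
  rw [Nat.card_Icc, Nat.add_sub_cancel] at h2
  have h3 : Nat.primeCounting n = ((range (n + 1)).filter Nat.Prime).card := by
    rw [Nat.primeCounting, Nat.primeCounting', Nat.count_eq_card_filter_range]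
  rw [← h3] at h2
  have h4 : (Nat.primeCounting n : ℝ) ≤ (((Ioc s n).filter Nat.Prime).card : ℝ) + s := by
    exact_mod_cast h2
  linarith

private lemma t4c_pi {x m : ℕ} (hx2 : 2 ≤ x)
    (hlog : Real.log x ≤ (1 / 25) * (x : ℝ) ^ (1 / 4 : ℝ)) (hm : 1 ≤ m)
    (hm4 : (m : ℝ) ≤ (x : ℝ) ^ (1 / 4 : ℝ)) :
    (x : ℝ) / (2 * Real.log x) * (1 / (m : ℝ)) ≤
      (((Ioc (Nat.sqrt x) (x / m)).filter Nat.Prime).card : ℝ) := by
  have hx2' : (2 : ℝ) ≤ (x : ℝ) := by exact_mod_cast hx2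
  have hm1 : (1 : ℝ) ≤ (m : ℝ) := by exact_mod_cast hm
  have hl2 := Real.log_two_gt_d9
  have hl2' := Real.log_two_lt_d9
  set y : ℝ := (x : ℝ) ^ (1 / 4 : ℝ) with hy
  have hy0 : 0 < y := Real.rpow_pos_of_pos (by linarith) _
  have hy4 : y ^ 4 = x := by
    rw [hy, ← Real.rpow_natCast, ← Real.rpow_mul (by linarith)]
    norm_num
  set L : ℝ := Real.log x with hL
  have hL2 : Real.log 2 ≤ L := Real.log_le_log (by norm_num) hx2'
  have hL0 : 0 < L := by linarith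
  have hy17 : 17 ≤ y := by linarith
  have hs : (Nat.sqrt x : ℝ) ≤ y ^ 2 := by
    have h1 : (Nat.sqrt x : ℝ) ^ 2 ≤ x := by exact_mod_cast Nat.sqrt_le' x
    have h2 : (Nat.sqrt x : ℝ) ^ 2 ≤ (y ^ 2) ^ 2 := by
      rw [← pow_mul]; norm_num [hy4, h1]
    exact le_of_sq_le_sq h2 (by positivity)
  have hnat : x < m * (x / m + 1) := by
    have := Nat.lt_mul_div_succ x (show 0 < m by omega)
    simpa using this
  set n : ℕ := x / m with hn
  have hn1 : (x : ℝ) < m * ((n : ℝ) + 1) := by exact_mod_cast hnat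
  have hnx : n ≤ x := Nat.div_le_self _ _
  have hnx' : (n : ℝ) ≤ x := by exact_mod_cast hnx
  set z : ℝ := (x : ℝ) / m with hz
  have hzn : z < n + 1 := by
    rw [hz, div_lt_iff₀ (by linarith)]
    linarith
  have hzy : y ^ 3 ≤ z := by
    rw [hz, le_div_iff₀ (by linarith), ← hy4]
    calc y ^ 3 * m ≤ y ^ 3 * y := mul_le_mul_of_nonneg_left hm4 (by positivity)
      _ = y ^ 4 := by ring
  have hy3 : 17 * y ^ 2 ≤ y ^ 3 := by
    have : y ^ 3 = y * y ^ 2 := by ring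
    rw [this]; exact mul_le_mul_of_nonneg_right hy17 (by positivity)
  have hy2 : 17 * y ≤ y ^ 2 := by
    have : y ^ 2 = y * y := by ring
    rw [this]; exact mul_le_mul_of_nonneg_right hy17 (by positivity)
  have hn2 : (2 : ℝ) ≤ n := by nlinarith
  have hpi := Chebyshev.pi_ge n
  have hlogn : 0 < Real.log n := Real.log_pos (by linarith)
  rw [div_le_iff₀ hlogn] at hpi
  have hlognL : Real.log n ≤ L := Real.log_le_log (by linarith) hnx'
  have hpi0 : (0 : ℝ) ≤ (Nat.primeCounting n : ℝ) := Nat.cast_nonneg _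
  have h1 : (Nat.primeCounting n : ℝ) * Real.log n ≤ (Nat.primeCounting n : ℝ) * L :=
    mul_le_mul_of_nonneg_left hlognL hpi0
  have h2 : Real.log ((n : ℝ) + 1) ≤ 2 * L := by
    calc Real.log ((n : ℝ) + 1) ≤ Real.log (2 * x) := Real.log_le_log (by linarith) (by linarith)
      _ = Real.log 2 + L := Real.log_mul (by norm_num) (by linarith)
      _ ≤ 2 * L := by linarith
  have hcard := t4c_card (Nat.sqrt x) n
  refine le_trans ?_ hcard
  have e : (x : ℝ) / (2 * L) * (1 / (m : ℝ)) = z / 2 / L := by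
    rw [hz]; field_simp
  rw [e, div_le_iff₀ hL0]
  have h3 : (z - 1) * Real.log 2 ≤ n * Real.log 2 :=
    mul_le_mul_of_nonneg_right (by linarith) (by linarith)
  have h4 : (Nat.sqrt x : ℝ) * L ≤ y ^ 2 * L := mul_le_mul_of_nonneg_right hs hL0.le
  have h5 : y ^ 2 * L ≤ y ^ 2 * ((1 / 25) * y) := mul_le_mul_of_nonneg_left hlog (by positivity)
  have h6 : y ^ 3 * (Real.log 2 - 1 / 2) ≤ z * (Real.log 2 - 1 / 2) :=
    mul_le_mul_of_nonneg_right hzy (by linarith)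
  have h7 : y ^ 3 * (19 / 100) ≤ y ^ 3 * (Real.log 2 - 1 / 2) :=
    mul_le_mul_of_nonneg_left (by linarith) (by positivity)
  nlinarith

/-- PIECE T4c. PROOF. The map `(m, q) ↦ m q` is injective on the pairs `1 ≤ m ≤ x ^ κ`,
`√x < q ≤ x / m`, `q` prime (`cof (m q) = m`, `P (m q) = q` by `cof_mul'`, `P_mul`), with values in
the set. For each `m` there are at least `π(x / m) - √x - 1 ≥ (1/2) (x / m) / log x` such `q`
(`Chebyshev.pi_ge`, `log 2 > 0.69`, `x / m ≥ x ^ (3/4)`), and `∑_{m ≤ x ^ κ} 1/m ≥ κ log x`. -/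
theorem t4c : ∀ κ : ℝ, 0 < κ → κ ≤ 1 / 4 → ∃ X0 : ℕ, ∀ x : ℕ, X0 ≤ x →
    κ / 2 * x ≤ (((Icc 2 x).filter (fun n => (cof n : ℝ) ≤ (x : ℝ) ^ κ)).card : ℝ) := by
  intro κ hκ hκ4
  obtain ⟨X0, hX0⟩ := t4c_ev
  refine ⟨X0, fun x hx => ?_⟩
  obtain ⟨hx2, hlog⟩ := hX0 x hx
  have hx1 : (1 : ℝ) ≤ (x : ℝ) := by exact_mod_cast (by omega : 1 ≤ x)
  have hx2' : (2 : ℝ) ≤ (x : ℝ) := by exact_mod_cast hx2
  have hL0 : 0 < Real.log x := Real.log_pos (by linarith)
  set N : ℕ := ⌊(x : ℝ) ^ κ⌋₊ with hN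
  have hN1 : (N : ℝ) ≤ (x : ℝ) ^ κ := Nat.floor_le (Real.rpow_nonneg (by linarith) _)
  have hN4 : (N : ℝ) ≤ (x : ℝ) ^ (1 / 4 : ℝ) :=
    hN1.trans (Real.rpow_le_rpow_of_exponent_le hx1 hκ4)
  have hNs : N ≤ Nat.sqrt x := by
    rw [Nat.le_sqrt']
    have h1 : (N : ℝ) ^ 2 ≤ ((x : ℝ) ^ (1 / 4 : ℝ)) ^ 2 := pow_le_pow_left₀ (Nat.cast_nonneg _) hN4 2
    have h2 : ((x : ℝ) ^ (1 / 4 : ℝ)) ^ 2 ≤ x := by
      rw [← Real.rpow_natCast, ← Real.rpow_mul (by linarith)]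
      calc (x : ℝ) ^ (1 / 4 * ((2 : ℕ) : ℝ)) ≤ (x : ℝ) ^ (1 : ℝ) :=
            Real.rpow_le_rpow_of_exponent_le hx1 (by norm_num)
        _ = x := Real.rpow_one _
    exact_mod_cast h1.trans h2
  -- the union
  have hsub : ((Icc 1 N).biUnion fun m =>
      (((Ioc (Nat.sqrt x) (x / m)).filter Nat.Prime).image fun q => m * q)) ⊆
      (Icc 2 x).filter (fun n => (cof n : ℝ) ≤ (x : ℝ) ^ κ) := by
    intro n hn
    rw [Finset.mem_biUnion] at hn
    obtain ⟨m, hm, hn⟩ := hn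
    rw [Finset.mem_image] at hn
    obtain ⟨q, hq, rfl⟩ := hn
    rw [Finset.mem_filter, Finset.mem_Ioc] at hq
    rw [Finset.mem_Icc] at hm
    rw [Finset.mem_filter, Finset.mem_Icc, cof_mul' hm.1 hq.2 (by omega)]
    refine ⟨⟨?_, ?_⟩, ?_⟩
    · calc 2 ≤ q := hq.2.two_le
        _ = 1 * q := (one_mul q).symm
        _ ≤ m * q := Nat.mul_le_mul_right _ hm.1
    · calc m * q ≤ m * (x / m) := Nat.mul_le_mul_left _ hq.1.2
        _ ≤ x := Nat.mul_div_le x m
    · have : (m : ℝ) ≤ N := by exact_mod_cast hm.2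
      linarith
  have hdisj : ∀ m ∈ Icc 1 N, ∀ m' ∈ Icc 1 N, m ≠ m' →
      Disjoint (((Ioc (Nat.sqrt x) (x / m)).filter Nat.Prime).image fun q => m * q)
        (((Ioc (Nat.sqrt x) (x / m')).filter Nat.Prime).image fun q => m' * q) := by
    intro m hm m' hm' hne
    rw [Finset.disjoint_left]
    intro n hn hn'
    rw [Finset.mem_image] at hn hn'
    obtain ⟨q, hq, rfl⟩ := hn
    obtain ⟨q', hq', he⟩ := hn'
    rw [Finset.mem_filter, Finset.mem_Ioc] at hq hq'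
    rw [Finset.mem_Icc] at hm hm'
    have h1 := cof_mul' hm.1 hq.2 (show m < q by omega)
    have h2 := cof_mul' hm'.1 hq'.2 (show m' < q' by omega)
    rw [he] at h2
    exact hne (h1.symm.trans h2)
  have hcard := Finset.card_le_card hsub
  rw [Finset.card_biUnion hdisj] at hcard
  have hcard' : (∑ m ∈ Icc 1 N, (((Ioc (Nat.sqrt x) (x / m)).filter Nat.Prime).card : ℝ)) ≤
      (((Icc 2 x).filter (fun n => (cof n : ℝ) ≤ (x : ℝ) ^ κ)).card : ℝ) := by
    have h1 : ∑ m ∈ Icc 1 N, (((Ioc (Nat.sqrt x) (x / m)).filter Nat.Prime).image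
        fun q => m * q).card = ∑ m ∈ Icc 1 N, ((Ioc (Nat.sqrt x) (x / m)).filter Nat.Prime).card := by
      refine Finset.sum_congr rfl fun m hm => ?_
      rw [Finset.mem_Icc] at hm
      exact Finset.card_image_of_injective _
        (fun a b h => Nat.eq_of_mul_eq_mul_left (show 0 < m by omega) h)
    rw [h1] at hcard
    exact_mod_cast hcard
  refine le_trans ?_ hcard'
  have hsum : (x : ℝ) / (2 * Real.log x) * ∑ m ∈ Icc 1 N, (1 / (m : ℝ)) ≤
      ∑ m ∈ Icc 1 N, (((Ioc (Nat.sqrt x) (x / m)).filter Nat.Prime).card : ℝ) := by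
    rw [Finset.mul_sum]
    refine Finset.sum_le_sum fun m hm => ?_
    rw [Finset.mem_Icc] at hm
    refine t4c_pi hx2 hlog hm.1 ?_
    have : (m : ℝ) ≤ N := by exact_mod_cast hm.2
    linarith
  refine le_trans ?_ hsum
  have hharm : κ * Real.log x ≤ ∑ m ∈ Icc 1 N, (1 / (m : ℝ)) := by
    have h1 := log_add_one_le_harmonic N
    have h2 : ((harmonic N : ℚ) : ℝ) = ∑ m ∈ Icc 1 N, (1 / (m : ℝ)) := by
      rw [harmonic_eq_sum_Icc]
      push_cast
      refine Finset.sum_congr rfl fun m _ => ?_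
      rw [one_div]
    rw [h2] at h1
    refine le_trans ?_ h1
    have h3 : (x : ℝ) ^ κ ≤ ((N + 1 : ℕ) : ℝ) := by
      have := Nat.lt_floor_add_one ((x : ℝ) ^ κ)
      rw [← hN] at this
      push_cast
      exact this.le
    calc κ * Real.log x = Real.log ((x : ℝ) ^ κ) := (Real.log_rpow (by linarith) _).symm
      _ ≤ Real.log ((N + 1 : ℕ) : ℝ) :=
          Real.log_le_log (Real.rpow_pos_of_pos (by linarith) _) h3
  have hxp : 0 ≤ (x : ℝ) / (2 * Real.log x) := by positivity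
  calc κ / 2 * x = (x : ℝ) / (2 * Real.log x) * (κ * Real.log x) := by
        field_simp
    _ ≤ (x : ℝ) / (2 * Real.log x) * ∑ m ∈ Icc 1 N, (1 / (m : ℝ)) :=
        mul_le_mul_of_nonneg_left hharm hxp

end

end Pool.Agent.Helper2.HT
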