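import Pool.Agent.Helper2.HT.T1
import Pool.Agent.Helper2.HT.T3b
import Pool.Agent.Helper2.HT.T4b
import Pool.Agent.Helper2.HT.T4c

set_option autoImplicit false

open Filter Finset

namespace Pool.Agent.Helper2.HT

open Pool.Agent.Helper44.TOT

noncomputable section

open Classical in
/-- few `n` with small cofactor reach a prime in two steps -/
theorem t4 : ∀ ε : ℝ, 0 < ε → ∃ κ0 : ℝ, 0 < κ0 ∧ ∀ κ : ℝ, 0 < κ → κ ≤ κ0 → ∃ X0 : ℕ, ∀ x : ℕ, X0 ≤ x →
    (((Icc 2 x).filter (fun n => (cof n : ℝ) ≤ (x : ℝ) ^ κ ∧ Reach 2 n)).card : ℝ) ≤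
      4 * ε * κ * x := by
  intro ε hε
  obtain ⟨u0, hu0, hu40, X1, h4b⟩ := t4b ε hε
  obtain ⟨C1, X2, h1⟩ := t1
  obtain ⟨C3, X3, h3⟩ := t3c 1
  refine ⟨u0 / 4, by linarith, fun κ hκ hκu => ?_⟩
  have hεκ : 0 < ε * κ := mul_pos hε hκ
  have hev : ∀ᶠ x : ℕ in atTop, 4 / u0 ≤ ll x ∧ 4 / u0 ≤ Real.log x ∧ 1 / κ ≤ Real.log x ∧
      (4 / (ε * κ)) * (ll x) ^ C1 ≤ Real.log x ∧ (4 / (ε * κ)) * (ll x) ^ C3 ≤ Real.log x ∧
      4 * Real.log (2 / (ε * κ)) ≤ Real.log x ∧ 2 ≤ x := by
    filter_upwards [tll.eventually_ge_atTop (4 / u0), tl.eventually_ge_atTop (4 / u0),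
      tl.eventually_ge_atTop (1 / κ), ev_pow C1 (4 / (ε * κ)), ev_pow C3 (4 / (ε * κ)),
      tl.eventually_ge_atTop (4 * Real.log (2 / (ε * κ))), eventually_ge_atTop 2]
      with x e1 e2 e3 e4 e5 e6 e7
    exact ⟨e1, e2, e3, e4, e5, e6, e7⟩
  obtain ⟨X4, hX4⟩ := eventually_atTop.1 hev
  refine ⟨max (max X1 X2) (max X3 X4), fun x hx => ?_⟩
  have hx1 : X1 ≤ x := (le_max_left _ _).trans ((le_max_left _ _).trans hx)
  have hx2 : X2 ≤ x := (le_max_right _ _).trans ((le_max_left _ _).trans hx)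
  have hx3 : X3 ≤ x := (le_max_left _ _).trans ((le_max_right _ _).trans hx)
  have hx4 : X4 ≤ x := (le_max_right _ _).trans ((le_max_right _ _).trans hx)
  obtain ⟨hs4, hL4, hLκ, hC1, hC3, hLe, hxge⟩ := hX4 x hx4
  set s : ℝ := ll x with hs
  set L : ℝ := Real.log x with hL
  have hx0 : (0 : ℝ) < x := by
    have : 0 < x := by omega
    exact_mod_cast this
  have hx1' : (1 : ℝ) ≤ x := by
    have : 1 ≤ x := by omega
    exact_mod_cast this
  have h4u : 160 ≤ 4 / u0 := by
    rw [le_div_iff₀ hu0]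
    linarith
  have hL0 : 0 < L := by linarith
  have hs0 : 0 < s := by linarith
  have hxe : (x : ℝ) = Real.exp L := by rw [hL, Real.exp_log hx0]
  have hpow : ∀ t : ℝ, (x : ℝ) ^ t = Real.exp (L * t) := fun t => by
    rw [Real.rpow_def_of_pos hx0]
  set S := (Icc 2 x).filter (fun n => (cof n : ℝ) ≤ (x : ℝ) ^ κ ∧ Reach 2 n) with hS
  -- the pieces
  set E1 := (Icc 2 x).filter (fun n => n.Prime ∨ (f n).Prime) with hE1
  set E2 := S.filter (fun n : ℕ => (n : ℝ) ≤ (x : ℝ) ^ ((3 : ℝ) / 4)) with hE2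
  set R := (S.filter (fun n : ℕ => (x : ℝ) ^ ((3 : ℝ) / 4) < (n : ℝ))).filter
    (fun n => ¬ (n.Prime ∨ (f n).Prime)) with hR
  set R1 := R.filter (fun n => (P (f n) : ℝ) < (x : ℝ) ^ u0) with hR1
  set R2 := R.filter (fun n => ¬ (P (f n) : ℝ) < (x : ℝ) ^ u0) with hR2
  have hsub : S ⊆ E1 ∪ (E2 ∪ (R1 ∪ R2)) := by
    intro n hn
    have hn1 := (Finset.mem_filter.1 hn).1
    by_cases h5 : n.Prime ∨ (f n).Prime
    · exact Finset.mem_union_left _ (Finset.mem_filter.2 ⟨hn1, h5⟩)
    · refine Finset.mem_union_right _ ?_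
      by_cases h6 : (n : ℝ) ≤ (x : ℝ) ^ ((3 : ℝ) / 4)
      · exact Finset.mem_union_left _ (Finset.mem_filter.2 ⟨hn, h6⟩)
      · refine Finset.mem_union_right _ ?_
        have h7 : n ∈ R := Finset.mem_filter.2 ⟨Finset.mem_filter.2 ⟨hn, not_le.1 h6⟩, h5⟩
        by_cases h8 : (P (f n) : ℝ) < (x : ℝ) ^ u0
        · exact Finset.mem_union_left _ (Finset.mem_filter.2 ⟨h7, h8⟩)
        · exact Finset.mem_union_right _ (Finset.mem_filter.2 ⟨h7, h8⟩)
  have hcard : (S.card : ℝ) ≤ E1.card + (E2.card + (R1.card + R2.card)) := by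
    have h5 : S.card ≤ E1.card + (E2.card + (R1.card + R2.card)) :=
      (Finset.card_le_card hsub).trans ((Finset.card_union_le _ _).trans
        (Nat.add_le_add_left ((Finset.card_union_le _ _).trans
          (Nat.add_le_add_left (Finset.card_union_le _ _) _)) _))
    exact_mod_cast h5
  -- properties of `R`
  have hRmem : ∀ n ∈ R, 2 ≤ n ∧ n ≤ x ∧ (cof n : ℝ) ≤ (x : ℝ) ^ κ ∧ (x : ℝ) ^ ((3 : ℝ) / 4) < n ∧
      ¬ n.Prime ∧ ¬ (f n).Prime ∧ (f (f n)).Prime := by
    intro n hn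
    rw [hR, Finset.mem_filter, Finset.mem_filter, hS, Finset.mem_filter, Finset.mem_Icc] at hn
    obtain ⟨⟨⟨⟨h5, h6⟩, h7, h8⟩, h9⟩, h10⟩ := hn
    push Not at h10
    refine ⟨h5, h6, h7, h9, h10.1, h10.2, ?_⟩
    obtain ⟨i, hi, hp⟩ := h8
    interval_cases i
    · exact absurd hp h10.1
    · exact absurd hp h10.2
    · exact hp
  have hκ160 : κ ≤ 1 / 160 := by linarith
  have hxκ : (x : ℝ) ^ κ ≤ (x : ℝ) ^ ((1 : ℝ) / 100) :=
    Real.rpow_le_rpow_of_exponent_le hx1' (by linarith)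
  have hsq : √(x : ℝ) = Real.exp (L / 2) := by
    rw [Real.sqrt_eq_rpow, hpow]
    congr 1
    ring
  have hRP : ∀ n ∈ R, √(x : ℝ) < P n := by
    intro n hn
    obtain ⟨h5, h6, h7, h8, h9, h10, h11⟩ := hRmem n hn
    by_contra hcon
    push Not at hcon
    have h12 : (cof n : ℝ) * P n ≤ (x : ℝ) ^ ((1 : ℝ) / 100) * √(x : ℝ) := by
      have := h7.trans hxκ
      gcongr
    have h13 : (x : ℝ) ^ ((1 : ℝ) / 100) * √(x : ℝ) ≤ (x : ℝ) ^ ((3 : ℝ) / 4) := by
      rw [hsq, hpow, hpow, ← Real.exp_add]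
      exact Real.exp_le_exp.2 (by linarith)
    have h14 : ((cof n * P n : ℕ) : ℝ) = n := by rw [cof_mul h5]
    push_cast at h14
    linarith
  have hRnd : ∀ n ∈ R, ¬ P n ∣ cof n := by
    intro n hn hdvd
    obtain ⟨h5, h6, h7, h8, h9, h10, h11⟩ := hRmem n hn
    have h12 : P n ≤ cof n := Nat.le_of_dvd (by have := cof_ge h5 h9; omega) hdvd
    have h13 : (P n : ℝ) ≤ cof n := by exact_mod_cast h12
    have h14 := hRP n hn
    have h15 : (x : ℝ) ^ ((1 : ℝ) / 100) ≤ √(x : ℝ) := by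
      rw [hsq, hpow]
      exact Real.exp_le_exp.2 (by linarith)
    linarith
  have hRf : ∀ n ∈ R, f n = ArithmeticFunction.sigma 1 (cof n) * P n +
      (ArithmeticFunction.sigma 1 (cof n) - 1) := by
    intro n hn
    obtain ⟨h5, h6, h7, h8, h9, h10, h11⟩ := hRmem n hn
    have h12 := f_mul (m := cof n) (q := P n) (by have := cof_ge h5 h9; omega) (P_prime h5)
      (hRnd n hn)
    rwa [cof_mul h5] at h12
  -- E1
  have hc1 : (E1.card : ℝ) ≤ ε * κ * x / 4 := by
    refine (h1 x hx2).trans ?_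
    have h5 : s ^ C1 / L ≤ ε * κ / 4 := by
      rw [div_le_iff₀ hL0]
      have h6 : s ^ C1 = (ε * κ / 4) * ((4 / (ε * κ)) * s ^ C1) := by field_simp
      rw [h6]
      gcongr
    calc (x : ℝ) * s ^ C1 / L = x * (s ^ C1 / L) := by ring
      _ ≤ x * (ε * κ / 4) := by gcongr
      _ = ε * κ * x / 4 := by ring
  -- E2
  have hc2 : (E2.card : ℝ) ≤ ε * κ * x / 2 := by
    have h5 : E2 ⊆ Finset.Icc 1 ⌊(x : ℝ) ^ ((3 : ℝ) / 4)⌋₊ := by
      intro n hn
      rw [hE2, Finset.mem_filter, hS, Finset.mem_filter, Finset.mem_Icc] at hn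
      rw [Finset.mem_Icc]
      exact ⟨by omega, Nat.le_floor hn.2⟩
    have h6 := Finset.card_le_card h5
    rw [Nat.card_Icc, Nat.add_sub_cancel] at h6
    have h7 : (E2.card : ℝ) ≤ (x : ℝ) ^ ((3 : ℝ) / 4) :=
      (by exact_mod_cast h6 : (E2.card : ℝ) ≤ (⌊(x : ℝ) ^ ((3 : ℝ) / 4)⌋₊ : ℝ)).trans
        (Nat.floor_le (by positivity))
    refine h7.trans ?_
    have h8 : 2 / (ε * κ) ≤ Real.exp (L / 4) := by
      rw [← Real.log_le_iff_le_exp (by positivity)]
      linarith
    have h9 : (x : ℝ) ^ ((3 : ℝ) / 4) * Real.exp (L / 4) = x := by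
      rw [hpow, ← Real.exp_add]
      rw [show L * (3 / 4) + L / 4 = L by ring, ← hxe]
    have h10 : (x : ℝ) ^ ((3 : ℝ) / 4) * (2 / (ε * κ)) ≤ x := by
      calc (x : ℝ) ^ ((3 : ℝ) / 4) * (2 / (ε * κ)) ≤ (x : ℝ) ^ ((3 : ℝ) / 4) * Real.exp (L / 4) := by
            gcongr
        _ = x := h9
    calc (x : ℝ) ^ ((3 : ℝ) / 4) = ε * κ / 2 * ((x : ℝ) ^ ((3 : ℝ) / 4) * (2 / (ε * κ))) := by
          field_simp
      _ ≤ ε * κ / 2 * x := by gcongr
      _ = ε * κ * x / 2 := by ring
  -- R1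
  have hc3 : (R1.card : ℝ) ≤ 2 * ε * κ * x := by
    set K := ⌊(x : ℝ) ^ κ⌋₊ with hK
    have hKpos : 1 ≤ K := by
      rw [hK, Nat.one_le_floor_iff]
      exact Real.one_le_rpow hx1' hκ.le
    have hR1mem : ∀ n ∈ R1, n ∈ R ∧ (P (f n) : ℝ) < (x : ℝ) ^ u0 := fun n hn => Finset.mem_filter.1 hn
    have hsub1 : R1 ⊆ (Finset.Icc 1 K).biUnion (fun m => R1.filter (fun n => cof n = m)) := by
      intro n hn
      obtain ⟨h5, h6, h7, h8, h9, h10, h11⟩ := hRmem n (hR1mem n hn).1
      rw [Finset.mem_biUnion]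
      refine ⟨cof n, ?_, Finset.mem_filter.2 ⟨hn, rfl⟩⟩
      rw [Finset.mem_Icc]
      exact ⟨by have := cof_ge h5 h9; omega, Nat.le_floor h7⟩
    have hcm : ∀ m ∈ Finset.Icc 1 K, ((R1.filter (fun n => cof n = m)).card : ℝ) ≤
        (ε * x / L) * (1 / (m : ℝ)) := by
      intro m hm
      rw [Finset.mem_Icc] at hm
      have hm0 : (0 : ℝ) < m := by
        have : 0 < m := by omega
        exact_mod_cast this
      rcases (R1.filter (fun n => cof n = m)).eq_empty_or_nonempty with he | ⟨n0, hn0⟩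
      · rw [he, Finset.card_empty, Nat.cast_zero]
        positivity
      · have hn01 := (Finset.mem_filter.1 hn0).1
        have hn02 : cof n0 = m := (Finset.mem_filter.1 hn0).2
        have hm2 : 2 ≤ m := by
          obtain ⟨h5, h6, h7, h8, h9, h10, h11⟩ := hRmem n0 (hR1mem n0 hn01).1
          rw [← hn02]
          exact cof_ge h5 h9
        have hmx : (m : ℝ) ≤ (x : ℝ) ^ ((1 : ℝ) / 100) := by
          have h5 : (m : ℝ) ≤ K := by exact_mod_cast hm.2
          have h6 : (K : ℝ) ≤ (x : ℝ) ^ κ := Nat.floor_le (by positivity)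
          linarith
        have h5 := h4b x hx1 m hm2 hmx
        have hinj : Set.InjOn P (R1.filter (fun n => cof n = m)) := by
          intro n hn n' hn' h
          have hn1 := Finset.mem_filter.1 hn
          have hn1' := Finset.mem_filter.1 hn'
          have e1 := (hRmem n (hR1mem n hn1.1).1).1
          have e2 := (hRmem n' (hR1mem n' hn1'.1).1).1
          rw [← cof_mul e1, ← cof_mul e2, h, hn1.2, hn1'.2]
        have hsub2 : (R1.filter (fun n => cof n = m)).image P ⊆
            (Icc 1 (x / m)).filter (fun q : ℕ => q.Prime ∧ √(x : ℝ) < q ∧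
              (P (ArithmeticFunction.sigma 1 m * q + (ArithmeticFunction.sigma 1 m - 1)) : ℝ) <
              (x : ℝ) ^ u0) := by
          intro q hq
          rw [Finset.mem_image] at hq
          obtain ⟨n, hn, rfl⟩ := hq
          have hn1 := Finset.mem_filter.1 hn
          have hnR := (hR1mem n hn1.1).1
          obtain ⟨e5, e6, e7, e8, e9, e10, e11⟩ := hRmem n hnR
          rw [Finset.mem_filter, Finset.mem_Icc]
          refine ⟨⟨(P_prime e5).one_le, ?_⟩, P_prime e5, hRP n hnR, ?_⟩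
          · rw [Nat.le_div_iff_mul_le (by omega), mul_comm, ← hn1.2, cof_mul e5]
            exact e6
          · have h6 := hRf n hnR
            rw [hn1.2] at h6
            rw [← h6]
            exact (hR1mem n hn1.1).2
        have h6 := Finset.card_le_card hsub2
        rw [Finset.card_image_of_injOn hinj] at h6
        have h7 : ((R1.filter (fun n => cof n = m)).card : ℝ) ≤ ε * ((x : ℝ) / m) / L :=
          le_trans (by exact_mod_cast h6) h5
        refine h7.trans (le_of_eq ?_)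
        field_simp
    have h5 : R1.card ≤ ∑ m ∈ Finset.Icc 1 K, (R1.filter (fun n => cof n = m)).card :=
      (Finset.card_le_card hsub1).trans Finset.card_biUnion_le
    have h6 : (R1.card : ℝ) ≤
        ((∑ m ∈ Finset.Icc 1 K, (R1.filter (fun n => cof n = m)).card : ℕ) : ℝ) := by
      exact_mod_cast h5
    refine h6.trans ?_
    rw [Nat.cast_sum]
    refine (Finset.sum_le_sum hcm).trans ?_
    rw [← Finset.mul_sum]
    have h7 := harm_le K
    have h8 : Real.log K ≤ κ * L := by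
      have h9 : Real.log K ≤ Real.log ((x : ℝ) ^ κ) :=
        Real.log_le_log (by exact_mod_cast hKpos) (Nat.floor_le (by positivity))
      rwa [Real.log_rpow hx0] at h9
    have h9 : 1 ≤ κ * L := by
      have := (div_le_iff₀ hκ).1 hLκ
      linarith
    calc (ε * x / L) * ∑ m ∈ Finset.Icc 1 K, (1 : ℝ) / m ≤ (ε * x / L) * (2 * (κ * L)) := by
          gcongr
          linarith
      _ = 2 * ε * κ * x := by
          field_simp
  -- R2
  have hc4 : (R2.card : ℝ) ≤ ε * κ * x / 4 := by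
    have h5 := h3 x hx3 R2 (by
      intro n hn
      have hn1 := Finset.mem_filter.1 hn
      obtain ⟨e5, e6, e7, e8, e9, e10, e11⟩ := hRmem n hn1.1
      refine ⟨e5, e6, e9, e10, e11, ?_⟩
      have hPf : (x : ℝ) ^ u0 ≤ P (f n) := not_lt.1 hn1.2
      have hf2 : 2 ≤ f n := e5.trans (le_f e5)
      have hcf : (cof (f n) : ℝ) * P (f n) = f n := by exact_mod_cast cof_mul hf2
      have hxu : 0 < (x : ℝ) ^ u0 := Real.rpow_pos_of_pos hx0 _
      have h6 : (cof (f n) : ℝ) ≤ f n / (x : ℝ) ^ u0 := by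
        rw [le_div_iff₀ hxu]
        calc (cof (f n) : ℝ) * (x : ℝ) ^ u0 ≤ cof (f n) * P (f n) := by gcongr
          _ = f n := hcf
      have hcn : 2 ≤ cof n := cof_ge e5 e9
      have h7 : f n ≤ 2 * cof n * x := by
        rw [hRf n hn1.1]
        have a1 : ArithmeticFunction.sigma 1 (cof n) ≤ cof n ^ 2 := sig_le
        have a2 : 2 ≤ P n := (P_prime e5).two_le
        calc ArithmeticFunction.sigma 1 (cof n) * P n + (ArithmeticFunction.sigma 1 (cof n) - 1)
            ≤ ArithmeticFunction.sigma 1 (cof n) * P n + ArithmeticFunction.sigma 1 (cof n) * P n := by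
              have : ArithmeticFunction.sigma 1 (cof n) ≤ ArithmeticFunction.sigma 1 (cof n) * P n :=
                Nat.le_mul_of_pos_right _ (by omega)
              omega
          _ = 2 * (ArithmeticFunction.sigma 1 (cof n) * P n) := by ring
          _ ≤ 2 * (cof n ^ 2 * P n) := by gcongr
          _ = 2 * cof n * (cof n * P n) := by ring
          _ ≤ 2 * cof n * x := by
              rw [cof_mul e5]
              gcongr
      have h7' : (f n : ℝ) ≤ 2 * cof n * x := by exact_mod_cast h7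
      have hcn0 : (0 : ℝ) ≤ cof n := Nat.cast_nonneg _
      calc (cof n : ℝ) * cof (f n) ≤ cof n * (2 * cof n * x / (x : ℝ) ^ u0) := by
            gcongr
            exact h6.trans (by gcongr)
        _ = 2 * (cof n : ℝ) ^ 2 * x / (x : ℝ) ^ u0 := by ring
        _ ≤ 2 * ((x : ℝ) ^ κ) ^ 2 * x / (x : ℝ) ^ u0 := by gcongr
        _ ≤ x * Real.exp (-(L / s ^ 1)) := by
            rw [hpow, hpow, ← Real.exp_nat_mul, pow_one]
            have h8 : 2 * Real.exp (((2 : ℕ) : ℝ) * (L * κ)) * x / Real.exp (L * u0) =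
                x * (2 * Real.exp (2 * (L * κ) - L * u0)) := by
              rw [Real.exp_sub]
              push_cast
              ring
            rw [h8]
            have h9 : (2 : ℝ) ≤ Real.exp 1 := by
              have := Real.add_one_le_exp (1 : ℝ)
              linarith
            have h10 : 2 * Real.exp (2 * (L * κ) - L * u0) ≤ Real.exp (-(L / s)) := by
              calc 2 * Real.exp (2 * (L * κ) - L * u0) ≤
                    Real.exp 1 * Real.exp (2 * (L * κ) - L * u0) := by gcongr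
                _ = Real.exp (1 + (2 * (L * κ) - L * u0)) := (Real.exp_add _ _).symm
                _ ≤ Real.exp (-(L / s)) := by
                    refine Real.exp_le_exp.2 ?_
                    have e1 : L / s ≤ L * u0 / 4 := by
                      rw [div_le_iff₀ hs0]
                      have e2 : 4 ≤ s * u0 := (div_le_iff₀ hu0).1 hs4
                      nlinarith
                    have e3 : 2 * (L * κ) ≤ L * u0 / 2 := by nlinarith
                    have e4 : 1 ≤ L * u0 / 4 := by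
                      have := (div_le_iff₀ hu0).1 hL4
                      linarith
                    linarith
            gcongr)
    refine h5.trans ?_
    have h5 : s ^ C3 / L ≤ ε * κ / 4 := by
      rw [div_le_iff₀ hL0]
      have h6 : s ^ C3 = (ε * κ / 4) * ((4 / (ε * κ)) * s ^ C3) := by field_simp
      rw [h6]
      gcongr
    calc (x : ℝ) * s ^ C3 / L = x * (s ^ C3 / L) := by ring
      _ ≤ x * (ε * κ / 4) := by gcongr
      _ = ε * κ * x / 4 := by ring
  have : 0 < ε * κ * x := by positivity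
  calc (S.card : ℝ) ≤ E1.card + (E2.card + (R1.card + R2.card)) := hcard
    _ ≤ ε * κ * x / 4 + (ε * κ * x / 2 + (2 * ε * κ * x + ε * κ * x / 4)) := by gcongr
    _ ≤ 4 * ε * κ * x := by nlinarith

end

end Pool.Agent.Helper2.HT
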