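import Pool.Agent.Helper2.HT.T1
import Pool.Agent.Helper2.HT.T4

/-!
# HT: the two final statements that do not need `t2`
-/

set_option autoImplicit false

open Finset

namespace Pool.Agent.Helper2.HT

theorem reach1 (n : ℕ) : Reach 1 n ↔ (n.Prime ∨ (f n).Prime) := by
  constructor
  · rintro ⟨i, hi, hp⟩
    interval_cases i
    · exact Or.inl hp
    · exact Or.inr hp
  · rintro (h | h)
    · exact ⟨0, by norm_num, h⟩
    · exact ⟨1, le_rfl, h⟩

theorem reach2 (n : ℕ) : Reach 2 n ↔ (n.Prime ∨ (f n).Prime ∨ (f (f n)).Prime) := by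
  constructor
  · rintro ⟨i, hi, hp⟩
    interval_cases i
    · exact Or.inl hp
    · exact Or.inr (Or.inl hp)
    · exact Or.inr (Or.inr hp)
  · rintro (h | h | h)
    · exact ⟨0, by norm_num, h⟩
    · exact ⟨1, by norm_num, h⟩
    · exact ⟨2, le_rfl, h⟩

open Classical in
theorem count_final : ∀ A : ℕ, ∃ C X0 : ℕ, ∀ x : ℕ, X0 ≤ x →
    (((Icc 2 x).filter (fun n => Reach 1 n ∨ (Reach 2 n ∧
      (cof n : ℝ) * cof (f n) ≤ (x : ℝ) ^ (1 - 1 / Real.log (Real.log x) ^ A)))).card : ℝ) ≤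
      x * Real.log (Real.log x) ^ C / Real.log x := by
  intro A
  obtain ⟨C1, X1, h1⟩ := t1
  obtain ⟨C3, X3, h3⟩ := t3c A
  obtain ⟨X4, h4⟩ := Filter.eventually_atTop.1 (ev_main A 2)
  refine ⟨max C1 C3 + 1, max X1 (max X3 X4), fun x hx => ?_⟩
  have hx1 : X1 ≤ x := (le_max_left _ _).trans hx
  have hx3 : X3 ≤ x := (le_max_left _ _).trans ((le_max_right _ _).trans hx)
  have hx4 : X4 ≤ x := (le_max_right _ _).trans ((le_max_right _ _).trans hx)
  obtain ⟨hs, -, hL, hV, hx2⟩ := h4 x hx4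
  have hs' : (2 : ℝ) ≤ Real.log (Real.log x) := hs
  have hx0 : (0 : ℝ) < x := by
    have : 0 < x := by omega
    exact_mod_cast this
  have hL0 : 0 < Real.log x := by linarith
  set S := (Icc 2 x).filter (fun n => Reach 1 n ∨ (Reach 2 n ∧
      (cof n : ℝ) * cof (f n) ≤ (x : ℝ) ^ (1 - 1 / Real.log (Real.log x) ^ A))) with hS
  set S1 := S.filter (fun n => n.Prime ∨ (f n).Prime) with hS1
  set S2 := S.filter (fun n => ¬ (n.Prime ∨ (f n).Prime)) with hS2
  have hsp : S.card = S1.card + S2.card := (Finset.card_filter_add_card_filter_not _).symm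
  have hsp' : (S.card : ℝ) = S1.card + S2.card := by exact_mod_cast hsp
  have e1 : (S1.card : ℝ) ≤ x * Real.log (Real.log x) ^ C1 / Real.log x := by
    have h5 : S1 ⊆ (Icc 2 x).filter (fun n => n.Prime ∨ (f n).Prime) := by
      intro n hn
      rw [hS1, Finset.mem_filter, hS, Finset.mem_filter] at hn
      exact Finset.mem_filter.2 ⟨hn.1.1, hn.2⟩
    exact le_trans (by exact_mod_cast Finset.card_le_card h5) (h1 x hx1)
  have e2 : (S2.card : ℝ) ≤ x * Real.log (Real.log x) ^ C3 / Real.log x := by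
    refine h3 x hx3 S2 fun n hn => ?_
    rw [hS2, Finset.mem_filter, hS, Finset.mem_filter, Finset.mem_Icc] at hn
    obtain ⟨⟨⟨h5, h6⟩, h78⟩, h9⟩ := hn
    push Not at h9
    rcases h78 with h7 | ⟨h7, h8⟩
    · rcases (reach1 n).1 h7 with h | h
      · exact absurd h h9.1
      · exact absurd h h9.2
    refine ⟨h5, h6, h9.1, h9.2, ?_, ?_⟩
    · rcases (reach2 n).1 h7 with h | h | h
      · exact absurd h h9.1
      · exact absurd h h9.2
      · exact h
    · refine h8.trans (le_of_eq ?_)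
      have hll : Pool.Agent.Helper44.TOT.ll x = Real.log (Real.log x) := rfl
      rw [hll, Real.rpow_def_of_pos hx0, mul_sub, mul_one, sub_eq_add_neg, Real.exp_add,
        Real.exp_log hx0, mul_one_div]
  have hpow : ∀ C, C ≤ max C1 C3 →
      Real.log (Real.log x) ^ C ≤ Real.log (Real.log x) ^ (max C1 C3) := fun C hC =>
    pow_le_pow_right₀ (by linarith) hC
  have e3 := hpow C1 (le_max_left _ _)
  have e4 := hpow C3 (le_max_right _ _)
  rw [hsp']
  calc (S1.card : ℝ) + S2.card ≤ x * Real.log (Real.log x) ^ C1 / Real.log x +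
        x * Real.log (Real.log x) ^ C3 / Real.log x := add_le_add e1 e2
    _ ≤ x * Real.log (Real.log x) ^ (max C1 C3) / Real.log x +
        x * Real.log (Real.log x) ^ (max C1 C3) / Real.log x := by gcongr
    _ = x * (2 * Real.log (Real.log x) ^ (max C1 C3)) / Real.log x := by ring
    _ ≤ x * Real.log (Real.log x) ^ (max C1 C3 + 1) / Real.log x := by
        rw [pow_succ']
        gcongr

open Classical in
theorem prop_final : ∀ ε : ℝ, 0 < ε → ∃ κ0 : ℝ, 0 < κ0 ∧ ∀ κ : ℝ, 0 < κ → κ ≤ κ0 →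
    ∃ X0 : ℕ, ∀ x : ℕ, X0 ≤ x →
      κ / 2 * x ≤ (((Icc 2 x).filter (fun n => (cof n : ℝ) ≤ (x : ℝ) ^ κ)).card : ℝ) ∧
      (((Icc 2 x).filter (fun n => (cof n : ℝ) ≤ (x : ℝ) ^ κ ∧ Reach 2 n)).card : ℝ) ≤
        ε * ((Icc 2 x).filter (fun n => (cof n : ℝ) ≤ (x : ℝ) ^ κ)).card := by
  intro ε hε
  obtain ⟨κ1, h1, h2⟩ := t4 (ε / 8) (by positivity)
  refine ⟨min κ1 (1 / 4), lt_min h1 (by norm_num), fun κ hκ hκ0 => ?_⟩
  obtain ⟨X1, h3⟩ := h2 κ hκ (hκ0.trans (min_le_left _ _))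
  obtain ⟨X2, h4⟩ := t4c κ hκ (hκ0.trans (min_le_right _ _))
  refine ⟨max X1 X2, fun x hx => ?_⟩
  have h5 := h3 x ((le_max_left _ _).trans hx)
  have h6 := h4 x ((le_max_right _ _).trans hx)
  refine ⟨h6, ?_⟩
  calc _ ≤ 4 * (ε / 8) * κ * x := h5
    _ = ε * (κ / 2 * x) := by ring
    _ ≤ _ := by gcongr

end Pool.Agent.Helper2.HT
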