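import Pool.Agent.Helper26.TOT.SieveIneq
import Pool.Agent.Helper26.TOT.JGe
import Pool.Agent.Helper26.TOT.HPow
import Pool.Agent.Helper26.TOT.HLow
import Pool.Agent.Helper26.TOT.SieveForms
import Pool.Agent.Helper41.TOT.TotLow
import Pool.Agent.Helper91.TOT.S6
import Pool.Agent.Helper87.TOT.PS

/-!
# HT-S1: crude upper bound sieve for at most three affine forms
-/

set_option autoImplicit false

open Filter Finset

namespace Pool.Agent.Helper2.HT

open Pool.Agent.Helper44.TOT Pool.Agent.Helper87.TOT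

noncomputable section

theorem hSF : SieveForms :=
  Pool.Agent.Helper26.TOT.sieveForms Pool.Agent.Helper26.TOT.sieveIneq Pool.Agent.Helper26.TOT.jge
    Pool.Agent.Helper26.TOT.hpow Pool.Agent.Helper26.TOT.hlow

theorem hTL : TotLow := Pool.Agent.Helper41.TOT.totLow Pool.Agent.Helper91.TOT.recipPrime

theorem tl : Tendsto (fun x : ℕ => Real.log (x : ℝ)) atTop atTop :=
  Real.tendsto_log_atTop.comp tendsto_natCast_atTop_atTop

theorem tll : Tendsto (fun x : ℕ => ll x) atTop atTop := Real.tendsto_log_atTop.comp tl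

/-- powers of `log log` are small against `log` -/
theorem ev_pow (A : ℕ) (K : ℝ) : ∀ᶠ x : ℕ in atTop, K * (ll x) ^ A ≤ Real.log x := by
  have h1 : ∀ᶠ L : ℝ in atTop, K * (Real.log L) ^ A ≤ L := by
    have h := (Real.isLittleO_pow_log_id_atTop (n := A)).bound (c := 1 / (|K| + 1)) (by positivity)
    filter_upwards [h, eventually_ge_atTop (1 : ℝ)] with L hL hL0
    have hlog : 0 ≤ Real.log L := Real.log_nonneg hL0
    simp only [id, Real.norm_eq_abs, abs_of_nonneg (by linarith : (0:ℝ) ≤ L)] at hL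
    rw [abs_of_nonneg (by positivity)] at hL
    have h2 : K * (Real.log L) ^ A ≤ (|K| + 1) * (Real.log L) ^ A := by
      gcongr
      linarith [le_abs_self K]
    refine h2.trans ?_
    calc (|K| + 1) * (Real.log L) ^ A ≤ (|K| + 1) * (1 / (|K| + 1) * L) := by gcongr
      _ = L := by field_simp
  exact tl.eventually h1

theorem dd_leB {f g : ℕ × ℕ} {M : ℕ} (hf1 : f.1 ≤ M) (hf2 : f.2 ≤ M) (hg1 : g.1 ≤ M)
    (hg2 : g.2 ≤ M) : dd f g ≤ M ^ 2 := by
  have h1 : f.1 * g.2 ≤ M ^ 2 := by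
    calc f.1 * g.2 ≤ M * M := Nat.mul_le_mul hf1 hg2
      _ = M ^ 2 := by ring
  have h2 : g.1 * f.2 ≤ M ^ 2 := by
    calc g.1 * f.2 ≤ M * M := Nat.mul_le_mul hg1 hf2
      _ = M ^ 2 := by ring
  unfold dd
  generalize f.1 * g.2 = u at h1
  generalize g.1 * f.2 = v at h2
  generalize M ^ 2 = w at h1 h2
  omega

theorem QQ_leB {Fs : Finset (ℕ × ℕ)} {M : ℕ} (hM : 4 ≤ M) (hk : Fs.card ≤ 3)
    (h1 : ∀ f ∈ Fs, f.1 ≤ M ∧ f.2 ≤ M) : QQ Fs ≤ M ^ 24 := by
  unfold QQ
  have e1 : primorial Fs.card ≤ M ^ 3 := by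
    refine (primorial_le_four_pow _).trans ?_
    calc 4 ^ Fs.card ≤ M ^ Fs.card := Nat.pow_le_pow_left hM _
      _ ≤ M ^ 3 := Nat.pow_le_pow_right (by omega) hk
  have e2 : (∏ f ∈ Fs, f.1) ≤ M ^ 3 := by
    refine (Finset.prod_le_pow_card _ _ M fun f hf => (h1 f hf).1).trans ?_
    exact Nat.pow_le_pow_right (by omega) hk
  have e3 : (∏ fg ∈ Fs.offDiag, dd fg.1 fg.2) ≤ M ^ 18 := by
    refine (Finset.prod_le_pow_card _ _ (M ^ 2) fun fg hfg => ?_).trans ?_
    · rw [Finset.mem_offDiag] at hfg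
      exact dd_leB (h1 _ hfg.1).1 (h1 _ hfg.1).2 (h1 _ hfg.2.1).1 (h1 _ hfg.2.1).2
    · rw [← pow_mul]
      refine Nat.pow_le_pow_right (by omega) ?_
      rw [Finset.offDiag_card]
      have : Fs.card * Fs.card ≤ 9 := by nlinarith
      omega
  calc primorial Fs.card * (∏ f ∈ Fs, f.1) * ∏ fg ∈ Fs.offDiag, dd fg.1 fg.2
      ≤ M ^ 3 * M ^ 3 * M ^ 18 := Nat.mul_le_mul (Nat.mul_le_mul e1 e2) e3
    _ = M ^ 24 := by ring

/-- crude sieve: at most three pairwise non-proportional forms with coefficients at most `x ^ B`, all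
prime, in an interval of length at least `exp (log x / (log log x) ^ A)` -/
theorem psg (A B : ℕ) : ∃ C X0 : ℕ, ∀ x : ℕ, X0 ≤ x → ∀ (Fs : Finset (ℕ × ℕ)) (X : ℕ) (S : Finset ℕ),
    Fs.Nonempty → Fs.card ≤ 3 → (∀ f ∈ Fs, 1 ≤ f.1 ∧ f.1 ≤ x ^ B ∧ f.2 ≤ x ^ B) →
    (∀ f ∈ Fs, ∀ g ∈ Fs, f ≠ g → f.1 * g.2 ≠ g.1 * f.2) →
    Real.exp (Real.log x / (ll x) ^ A) ≤ X →
    (∀ n ∈ S, n ≤ X ∧ ∀ f ∈ Fs, (f.1 * n + f.2).Prime) →
    (S.card : ℝ) ≤ X * ((ll x) ^ C / Real.log x) ^ Fs.card := by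
  obtain ⟨C0, hC0⟩ := hTL
  have hev : ∀ᶠ x : ℕ in atTop, 3 ≤ ll x ∧ (46 * C0 * 3 ^ C0 + 2 : ℝ) ≤ ll x ∧
      (1000 : ℝ) * (ll x) ^ (A + 1) ≤ Real.log x ∧ (24 * (B + 1) : ℝ) ≤ Real.log x ∧ 4 ≤ x :=
    (tll.eventually_ge_atTop 3).and ((tll.eventually_ge_atTop _).and ((ev_pow (A + 1) 1000).and
      ((tl.eventually_ge_atTop _).and (eventually_ge_atTop 4))))
  obtain ⟨X0, hX0⟩ := eventually_atTop.1 hev
  refine ⟨A + C0 + 1, X0, ?_⟩
  intro x hx Fs X S hne hcard hco hdet hX hS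
  obtain ⟨hs3, hsK, hsA, hLB, hx4⟩ := hX0 x hx
  set s : ℝ := ll x with hs
  set L : ℝ := Real.log x with hL
  have hsL : s = Real.log L := rfl
  have hs0 : 0 < s := by linarith
  have hsA0 : 0 < s ^ A := by positivity
  have hsA1 : 1 ≤ s ^ A := one_le_pow₀ (by linarith)
  have hL0 : 0 < L := by
    have : 0 < (1000 : ℝ) * s ^ (A + 1) := by positivity
    linarith
  set V : ℝ := L / s ^ A with hV
  have hV1 : 1000 * s ≤ V := by
    rw [hV, le_div_iff₀ hsA0]
    calc 1000 * s * s ^ A = 1000 * s ^ (A + 1) := by ring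
      _ ≤ L := hsA
  have hV0 : 0 < V := by nlinarith
  set k : ℕ := Fs.card with hk
  have hk1 : 1 ≤ k := Finset.card_pos.2 hne
  set z : ℕ := ⌊Real.exp (V / 4)⌋₊ with hz
  have hz_le : (z : ℝ) ≤ Real.exp (V / 4) := Nat.floor_le (by positivity)
  have hz_gt : Real.exp (V / 4) < (z : ℝ) + 1 := Nat.lt_floor_add_one _
  have hbig : (4 : ℝ) ≤ Real.exp (V / 4) := by
    have := Real.add_one_le_exp (V / 4)
    nlinarith
  have hz2 : 2 ≤ z := by
    have : (2 : ℝ) < (z : ℝ) := by linarith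
    have : 2 < z := by exact_mod_cast this
    omega
  have hlogz : V / 5 ≤ Real.log z := by
    have h1 : Real.exp (V / 4) / 2 ≤ z := by linarith
    have h2 := Real.log_le_log (by positivity) h1
    rw [Real.log_div (Real.exp_pos _).ne' two_ne_zero, Real.log_exp] at h2
    have h3 : Real.log 2 ≤ 1 := by
      have := Real.log_two_lt_d9
      linarith
    nlinarith
  have hlogz0 : 0 < Real.log z := lt_of_lt_of_le (by positivity) hlogz
  have hX1 : (1 : ℝ) ≤ X := le_trans (Real.one_le_exp hV0.le) hX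
  have hz3 : (z : ℝ) ^ 3 ≤ X := by
    refine le_trans ?_ hX
    calc (z : ℝ) ^ 3 ≤ (Real.exp (V / 4)) ^ 3 := by gcongr
      _ = Real.exp (3 * (V / 4)) := by rw [← Real.exp_nat_mul]; norm_num
      _ ≤ Real.exp V := Real.exp_le_exp.2 (by linarith)
  -- the modulus
  have hQ1 : 1 ≤ QQ Fs := QQ_pos (fun f hf => (hco f hf).1) hdet
  have hx0 : (0 : ℝ) < x := by
    have : 0 < x := by omega
    exact_mod_cast this
  have hlogQ : Real.log (QQ Fs) ≤ L ^ 2 := by
    have hM : 4 ≤ x ^ (B + 1) := by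
      calc 4 ≤ x := hx4
        _ = x ^ 1 := (pow_one x).symm
        _ ≤ x ^ (B + 1) := Nat.pow_le_pow_right (by omega) (by omega)
    have hMB : x ^ B ≤ x ^ (B + 1) := Nat.pow_le_pow_right (by omega) (by omega)
    have h1 := QQ_leB (Fs := Fs) hM hcard (fun f hf =>
      ⟨(hco f hf).2.1.trans hMB, (hco f hf).2.2.trans hMB⟩)
    have h2 : (QQ Fs : ℝ) ≤ ((x : ℝ) ^ (B + 1)) ^ 24 := by exact_mod_cast h1
    have h3 := Real.log_le_log (by exact_mod_cast hQ1) h2
    rw [Real.log_pow, Real.log_pow] at h3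
    push_cast at h3
    calc Real.log (QQ Fs) ≤ 24 * ((B + 1) * L) := h3
      _ = (24 * (B + 1)) * L := by ring
      _ ≤ L * L := by gcongr
      _ = L ^ 2 := by ring
  have hL1 : 1 ≤ L := by nlinarith
  have hQφ : (QQ Fs : ℝ) / (QQ Fs).totient ≤ C0 * (3 * s) ^ C0 := by
    refine (hC0 _ hQ1).trans ?_
    have hlogQ0 : 0 ≤ Real.log (QQ Fs) := Real.log_nonneg (by exact_mod_cast hQ1)
    have h1 : 0 ≤ Real.log (1 + Real.log (QQ Fs)) := Real.log_nonneg (by linarith)
    have h2 : 1 + Real.log (1 + Real.log (QQ Fs)) ≤ 3 * s := by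
      have h3 : 1 + Real.log (QQ Fs) ≤ 2 * L ^ 2 := by nlinarith
      have h4 := Real.log_le_log (by linarith) h3
      rw [Real.log_mul two_ne_zero (by positivity), Real.log_pow, ← hsL] at h4
      push_cast at h4
      have h5 : Real.log 2 ≤ 1 := by
        have := Real.log_two_lt_d9
        linarith
      linarith
    gcongr
  have hφ0 : (0 : ℝ) < (QQ Fs).totient := by
    exact_mod_cast Nat.totient_pos.2 hQ1
  -- large values
  set S1 := S.filter (fun n => ∀ f ∈ Fs, z < f.1 * n + f.2) with hS1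
  have hsieve := hSF Fs (QQ Fs) (X + 1) z hne hQ1 hz2
    (by
      intro l hl hlk
      refine dvd_mul_of_dvd_left (dvd_mul_of_dvd_left ?_ _) _
      unfold primorial
      refine Finset.dvd_prod_of_mem _ ?_
      rw [Finset.mem_filter, Finset.mem_range]
      exact ⟨Nat.lt_succ_of_le hlk, hl⟩)
    (by
      intro f hf l _ hlf
      refine dvd_mul_of_dvd_left (dvd_mul_of_dvd_right ?_ _) _
      exact hlf.trans (Finset.dvd_prod_of_mem _ hf))
    (by
      intro f hf g hg hfg l _ hl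
      refine dvd_mul_of_dvd_right ?_ _
      refine (dvd_dd hl).trans
        (Finset.dvd_prod_of_mem (fun fg : (ℕ × ℕ) × (ℕ × ℕ) => dd fg.1 fg.2)
          (a := (f, g)) ?_)
      rw [Finset.mem_offDiag]
      exact ⟨hf, hg, hfg⟩)
    S1
    (by
      intro n hn
      rw [hS1, Finset.mem_filter] at hn
      obtain ⟨hnX, hnF⟩ := hS n hn.1
      refine ⟨Nat.lt_succ_of_le hnX, fun f hf l hl hlz hdvd => ?_⟩
      have hle : l = f.1 * n + f.2 := (Nat.prime_dvd_prime_iff_eq hl (hnF f hf)).1 hdvd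
      have := hn.2 f hf
      omega)
  have hS2 : (S \ S1).card ≤ z + 1 := by
    have : S \ S1 ⊆ Finset.range (z + 1) := by
      intro n hn
      rw [Finset.mem_sdiff, hS1, Finset.mem_filter] at hn
      have h1 : ¬ ∀ f ∈ Fs, z < f.1 * n + f.2 := fun h => hn.2 ⟨hn.1, h⟩
      push Not at h1
      obtain ⟨f, hf, hfz⟩ := h1
      have h2 := (hco f hf).1
      have h3 : n ≤ f.1 * n := Nat.le_mul_of_pos_left n h2
      rw [Finset.mem_range]
      omega
    simpa using Finset.card_le_card this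
  have hcardS : (S.card : ℝ) ≤ S1.card + (z + 1) := by
    have h1 : S.card ≤ S1.card + (S \ S1).card := by
      have h2 := Finset.card_sdiff_add_card S S1
      have h3 : S.card ≤ (S ∪ S1).card := Finset.card_le_card Finset.subset_union_left
      omega
    have h2 : S.card ≤ S1.card + (z + 1) := by omega
    exact_mod_cast h2
  -- estimate
  have hbase : (Fs.card : ℝ) * (QQ Fs : ℝ) / (((QQ Fs).totient : ℝ) * Real.log z) ≤
      15 * C0 * 3 ^ C0 * s ^ (A + C0) / L := by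
    have h1 : (Fs.card : ℝ) * (QQ Fs : ℝ) / (((QQ Fs).totient : ℝ) * Real.log z) =
        (Fs.card : ℝ) * ((QQ Fs : ℝ) / (QQ Fs).totient) / Real.log z := by
      field_simp
    have hk3 : (Fs.card : ℝ) ≤ 3 := by exact_mod_cast hcard
    rw [h1]
    calc (Fs.card : ℝ) * ((QQ Fs : ℝ) / (QQ Fs).totient) / Real.log z
        ≤ 3 * (C0 * (3 * s) ^ C0) / (V / 5) := by
          gcongr
      _ = 15 * C0 * 3 ^ C0 * s ^ (A + C0) / L := by
          rw [mul_pow, pow_add, hV]
          field_simp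
          ring
  have hbase0 : 0 ≤ (Fs.card : ℝ) * (QQ Fs : ℝ) / (((QQ Fs).totient : ℝ) * Real.log z) := by
    positivity
  set t : ℝ := 15 * C0 * 3 ^ C0 * s ^ (A + C0) / L with ht
  have ht0 : 0 ≤ t := hbase0.trans hbase
  have hzz : (z : ℝ) + 1 ≤ X * (1 / L) ^ k := by
    have h1 : (z : ℝ) + 1 ≤ 2 * Real.exp (V / 4) := by linarith
    have h2 : (1 / L) ^ 3 ≤ (1 / L) ^ k := by
      refine pow_le_pow_of_le_one (by positivity) ?_ hcard
      rw [div_le_one hL0]
      exact hL1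
    have h3 : 2 * Real.exp (V / 4) ≤ X * (1 / L) ^ 3 := by
      have h4 : L = Real.exp s := by rw [hsL, Real.exp_log hL0]
      have h5 : (1 / L) ^ 3 = Real.exp (-(3 * s)) := by
        rw [h4, one_div, ← Real.exp_neg, ← Real.exp_nat_mul]
        congr 1
        push_cast
        ring
      have h6 : 2 * Real.exp (V / 4) ≤ Real.exp (1 + V / 4) := by
        rw [Real.exp_add]
        have := Real.exp_one_gt_d9
        gcongr
        linarith
      rw [h5]
      calc 2 * Real.exp (V / 4) ≤ Real.exp (1 + V / 4) := h6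
        _ ≤ Real.exp (V - 3 * s) := Real.exp_le_exp.2 (by nlinarith)
        _ = Real.exp V * Real.exp (-(3 * s)) := by rw [← Real.exp_add]; congr 1
        _ ≤ X * Real.exp (-(3 * s)) := by gcongr
    calc (z : ℝ) + 1 ≤ X * (1 / L) ^ 3 := h1.trans h3
      _ ≤ X * (1 / L) ^ k := by gcongr
  have hS1le : (S1.card : ℝ) ≤ X * (3 * t) ^ k := by
    calc (S1.card : ℝ) ≤ (((X + 1 : ℕ) : ℝ) + (z : ℝ) ^ 3) *
        ((Fs.card : ℝ) * (QQ Fs : ℝ) / (((QQ Fs).totient : ℝ) * Real.log z)) ^ Fs.card := hsieve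
      _ ≤ (3 * X) * t ^ Fs.card := by
        refine mul_le_mul ?_ (pow_le_pow_left₀ hbase0 hbase _) (by positivity) (by positivity)
        push_cast
        linarith
      _ = X * (3 * t ^ Fs.card) := by ring
      _ ≤ X * (3 ^ Fs.card * t ^ Fs.card) := by
        have : (3 : ℝ) ≤ 3 ^ Fs.card := by
          calc (3 : ℝ) = 3 ^ 1 := by norm_num
            _ ≤ 3 ^ Fs.card := pow_le_pow_right₀ (by norm_num) hk1
        gcongr
      _ = X * (3 * t) ^ Fs.card := by rw [mul_pow]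
  calc (S.card : ℝ) ≤ X * (3 * t) ^ k + X * (1 / L) ^ k := by linarith
    _ ≤ X * (3 * t + 1 / L) ^ k := by
        have h1 : (3 * t) ^ k + (1 / L) ^ k ≤ (3 * t + 1 / L) ^ k :=
          pow_add_pow_le (by positivity) (by positivity) (by omega)
        have h2 : (0 : ℝ) ≤ X := by positivity
        nlinarith
    _ ≤ X * (s ^ (A + C0 + 1) / L) ^ k := by
        have h1 : 3 * t + 1 / L ≤ s ^ (A + C0 + 1) / L := by
          have h2 : 3 * t + 1 / L = ((45 * C0 * 3 ^ C0) * s ^ (A + C0) + 1) / L := by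
            rw [ht]
            ring
          rw [h2, pow_succ, mul_comm (s ^ (A + C0)) s]
          have h3 : (1 : ℝ) ≤ s ^ (A + C0) := one_le_pow₀ (by linarith)
          have h4 : (45 * C0 * 3 ^ C0 : ℝ) * s ^ (A + C0) + 1 ≤
              (46 * C0 * 3 ^ C0 + 2) * s ^ (A + C0) := by
            have h5 : (0 : ℝ) ≤ C0 * 3 ^ C0 := by positivity
            nlinarith
          have h6 : (46 * C0 * 3 ^ C0 + 2 : ℝ) * s ^ (A + C0) ≤ s * s ^ (A + C0) := by gcongr
          gcongr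
          linarith
        gcongr

end

end Pool.Agent.Helper2.HT
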