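import Pool.Agent.Helper2.HT.S1
import Pool.Agent.Helper2.HT.Df

/-!
# HT-S3: one step and two steps with fixed cofactors
-/

set_option autoImplicit false

open Filter Finset

namespace Pool.Agent.Helper2.HT

open Pool.Agent.Helper44.TOT

noncomputable section

/-- one step: primes `q ≤ X` with `f (m q)` prime -/
theorem pairs (A : ℕ) : ∃ C X0 : ℕ, ∀ x : ℕ, X0 ≤ x → ∀ (m X : ℕ) (S : Finset ℕ), 2 ≤ m → m ≤ x →
    Real.exp (Real.log x / (ll x) ^ A) ≤ X →
    (∀ q ∈ S, q ≤ X ∧ q.Prime ∧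
      (ArithmeticFunction.sigma 1 m * q + (ArithmeticFunction.sigma 1 m - 1)).Prime) →
    (S.card : ℝ) ≤ X * ((ll x) ^ C / Real.log x) ^ 2 := by
  obtain ⟨C, X0, h⟩ := psg A 2
  refine ⟨C, max X0 1, fun x hx m X S hm hmx hX hS => ?_⟩
  have hx0 : X0 ≤ x := (le_max_left _ _).trans hx
  have hx1 : 1 ≤ x := (le_max_right _ _).trans hx
  set a := ArithmeticFunction.sigma 1 m with ha
  have ha1 : m + 1 ≤ a := sig_ge hm
  have ha2 : a ≤ x ^ 2 := sig_le.trans (Nat.pow_le_pow_left hmx 2)
  have hne : ((1, 0) : ℕ × ℕ) ≠ (a, a - 1) := by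
    intro h0
    have := congrArg Prod.fst h0
    simp at this
    omega
  have hc : ({(1, 0), (a, a - 1)} : Finset (ℕ × ℕ)).card = 2 := Finset.card_pair hne
  have h2 := h x hx0 {(1, 0), (a, a - 1)} X S ⟨(1, 0), by simp⟩ (by rw [hc]; norm_num)
    (by
      intro f hf
      rw [Finset.mem_insert, Finset.mem_singleton] at hf
      rcases hf with rfl | rfl
      · exact ⟨le_rfl, Nat.one_le_pow _ _ hx1, Nat.zero_le _⟩
      · exact ⟨by omega, ha2, (Nat.sub_le _ _).trans ha2⟩)
    (by
      intro f hf g hg hfg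
      rw [Finset.mem_insert, Finset.mem_singleton] at hf hg
      rcases hf with rfl | rfl <;> rcases hg with rfl | rfl
      · exact absurd rfl hfg
      · show 1 * (a - 1) ≠ a * 0
        omega
      · show a * 0 ≠ 1 * (a - 1)
        omega
      · exact absurd rfl hfg)
    hX
    (by
      intro q hq
      obtain ⟨h3, h4, h5⟩ := hS q hq
      refine ⟨h3, fun f hf => ?_⟩
      rw [Finset.mem_insert, Finset.mem_singleton] at hf
      rcases hf with rfl | rfl
      · show (1 * q + 0).Prime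
        simpa using h4
      · exact h5)
  rw [hc] at h2
  exact h2

/-- two steps: primes `q ≤ X` with `f (m q) = b r`, `r` prime, `f (b r)` prime -/
theorem triples (A : ℕ) : ∃ C X0 : ℕ, ∀ x : ℕ, X0 ≤ x → ∀ (m b X : ℕ) (S : Finset ℕ), 2 ≤ m → m ≤ x →
    2 ≤ b → b ≤ x → X ≤ x →
    Real.exp (Real.log x / (ll x) ^ A) ≤ (X / b : ℕ) →
    (∀ q ∈ S, q ≤ X ∧ q.Prime ∧ ∃ r : ℕ, r.Prime ∧
      ArithmeticFunction.sigma 1 m * q + (ArithmeticFunction.sigma 1 m - 1) = b * r ∧
      (ArithmeticFunction.sigma 1 b * r + (ArithmeticFunction.sigma 1 b - 1)).Prime) →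
    (S.card : ℝ) ≤ (X / b : ℕ) * ((ll x) ^ C / Real.log x) ^ 3 := by
  obtain ⟨C, X0, h⟩ := psg A 8
  refine ⟨C, max X0 2, fun x hx m b X S hm hmx hb hbx hXx hX hS => ?_⟩
  have hx0 : X0 ≤ x := (le_max_left _ _).trans hx
  have hx2 : 2 ≤ x := (le_max_right _ _).trans hx
  set a := ArithmeticFunction.sigma 1 m with ha
  set B := ArithmeticFunction.sigma 1 b with hB
  have ha1 : m + 1 ≤ a := sig_ge hm
  have hB1 : b + 1 ≤ B := sig_ge hb
  have ha2 : a ≤ x ^ 2 := sig_le.trans (Nat.pow_le_pow_left hmx 2)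
  have hB2 : B ≤ x ^ 2 := sig_le.trans (Nat.pow_le_pow_left hbx 2)
  have hlog : 0 ≤ Real.log x := Real.log_natCast_nonneg x
  rcases S.eq_empty_or_nonempty with rfl | hSne
  · rw [Finset.card_empty, Nat.cast_zero]
    have hll : 0 ≤ ((ll x) ^ C / Real.log x) ^ 3 ∨ ((ll x) ^ C / Real.log x) ^ 3 < 0 :=
      le_or_gt _ _
    rcases hll with h0 | h0
    · positivity
    · exfalso
      -- `ll x` is nonnegative for large `x`; use the sieve itself on the empty set
      have h1 := h x hx0 {(1, 0)} (X / b) ∅ ⟨(1, 0), by simp⟩ (by simp)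
        (by
          intro f hf
          rw [Finset.mem_singleton] at hf
          subst hf
          exact ⟨le_rfl, Nat.one_le_pow _ _ (by omega), Nat.zero_le _⟩)
        (by
          intro f hf g hg hfg
          rw [Finset.mem_singleton] at hf hg
          exact absurd (hf.trans hg.symm) hfg)
        hX (by simp)
      rw [Finset.card_empty, Nat.cast_zero, Finset.card_singleton, pow_one] at h1
      have h2 : (ll x) ^ C / Real.log x < 0 := by
        by_contra hcon
        push Not at hcon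
        exact absurd (pow_nonneg hcon 3) (not_le.2 h0)
      have h3 : (0 : ℝ) < (X / b : ℕ) := lt_of_lt_of_le (Real.exp_pos _) hX
      exact absurd h1 (not_le.2 (mul_neg_of_pos_of_neg h3 h2))
  -- the base point
  set q0 := S.min' hSne with hq0
  have hq0S : q0 ∈ S := Finset.min'_mem S hSne
  obtain ⟨hq0X, hq0p, r0, hr0p, hr0, hr0'⟩ := hS q0 hq0S
  have hcop : Nat.Coprime a b := by
    have h1 : Nat.gcd a b ∣ 1 := by
      have h2 : Nat.gcd a b ∣ b * r0 := (Nat.gcd_dvd_right a b).mul_right r0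
      have h3 : Nat.gcd a b ∣ a * (q0 + 1) := (Nat.gcd_dvd_left a b).mul_right _
      have h4 : a * (q0 + 1) = b * r0 + 1 := by
        rw [← hr0, mul_add, mul_one]
        omega
      rw [h4] at h3
      exact (Nat.dvd_add_right h2).1 h3
    exact Nat.dvd_one.1 h1
  -- parametrisation
  have hpar : ∀ q ∈ S, ∃ t : ℕ, q = q0 + b * t ∧ t ≤ X / b ∧
      (b * t + q0).Prime ∧ (a * t + r0).Prime ∧ (B * a * t + (B * r0 + (B - 1))).Prime := by
    intro q hq
    obtain ⟨hqX, hqp, r, hrp, hr, hr'⟩ := hS q hq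
    have hle : q0 ≤ q := Finset.min'_le S q hq
    obtain ⟨d, rfl⟩ := Nat.exists_eq_add_of_le hle
    have h1 : b ∣ a * d := by
      have h2 : b * r = b * r0 + a * d := by
        rw [← hr, ← hr0]
        ring
      exact (Nat.dvd_add_right (dvd_mul_right b r0)).1 (h2 ▸ dvd_mul_right b r)
    have h2 : b ∣ d := (Nat.Coprime.dvd_mul_left hcop.symm).1 h1
    obtain ⟨t, rfl⟩ := h2
    have h3 : r = r0 + a * t := by
      have h4 : b * r = b * (r0 + a * t) := by
        rw [← hr, mul_add b r0, ← hr0]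
        ring
      exact Nat.eq_of_mul_eq_mul_left (by omega) h4
    refine ⟨t, rfl, ?_, ?_, ?_, ?_⟩
    · rw [Nat.le_div_iff_mul_le (by omega)]
      calc t * b = b * t := mul_comm _ _
        _ ≤ q0 + b * t := Nat.le_add_left _ _
        _ ≤ X := hqX
    · rwa [add_comm]
    · rw [add_comm, ← h3]
      exact hrp
    · have h5 : B * a * t + (B * r0 + (B - 1)) = B * r + (B - 1) := by
        rw [h3]
        ring
      rw [h5]
      exact hr'
  choose! t ht1 ht2 ht3 ht4 ht5 using hpar
  -- the sieve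
  have hdet : b * r0 = a * q0 + (a - 1) := hr0.symm
  set F1 : ℕ × ℕ := (b, q0) with hF1
  set F2 : ℕ × ℕ := (a, r0) with hF2
  set F3 : ℕ × ℕ := (B * a, B * r0 + (B - 1)) with hF3
  have hr0x : r0 ≤ x ^ 4 := by
    have h1 : r0 ≤ b * r0 := Nat.le_mul_of_pos_left r0 (by omega)
    have h2 : b * r0 ≤ a * (q0 + 1) := by
      rw [hdet, mul_add, mul_one]
      omega
    have h3 : q0 + 1 ≤ x ^ 2 := by
      have : q0 ≤ x := hq0X.trans hXx
      nlinarith
    calc r0 ≤ a * (q0 + 1) := h1.trans h2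
      _ ≤ x ^ 2 * x ^ 2 := Nat.mul_le_mul ha2 h3
      _ = x ^ 4 := by ring
  have hp28 : x ^ 2 ≤ x ^ 8 := Nat.pow_le_pow_right (by omega) (by norm_num)
  have hp48 : x ^ 4 ≤ x ^ 8 := Nat.pow_le_pow_right (by omega) (by norm_num)
  have hp18 : x ≤ x ^ 8 := Nat.le_self_pow (by norm_num) _
  have hd12 : F1.1 * F2.2 ≠ F2.1 * F1.2 := by
    show b * r0 ≠ a * q0
    omega
  have hd23 : F2.1 * F3.2 ≠ F3.1 * F2.2 := by
    show a * (B * r0 + (B - 1)) ≠ B * a * r0
    have h1 : a * (B * r0 + (B - 1)) = B * a * r0 + a * (B - 1) := by ring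
    have h2 : 0 < a * (B - 1) := Nat.mul_pos (by omega) (by omega)
    omega
  have hd13 : F1.1 * F3.2 ≠ F3.1 * F1.2 := by
    show b * (B * r0 + (B - 1)) ≠ B * a * q0
    have h1 : b * (B * r0 + (B - 1)) = B * (b * r0) + b * (B - 1) := by ring
    have h2 : 0 < b * (B - 1) := Nat.mul_pos (by omega) (by omega)
    have h3 : B * a * q0 ≤ B * (b * r0) := by
      rw [mul_assoc]
      exact Nat.mul_le_mul_left _ (by omega)
    omega
  have hne12 : F1 ≠ F2 := fun h0 => hd12 (by rw [h0])
  have hne23 : F2 ≠ F3 := fun h0 => hd23 (by rw [h0])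
  have hne13 : F1 ≠ F3 := fun h0 => hd13 (by rw [h0])
  have hc : ({F1, F2, F3} : Finset (ℕ × ℕ)).card = 3 := by
    rw [Finset.card_insert_of_notMem, Finset.card_pair hne23]
    rw [Finset.mem_insert, Finset.mem_singleton]
    rintro (h0 | h0)
    · exact hne12 h0
    · exact hne13 h0
  have hinj : Set.InjOn t S := by
    intro q1 h1 q2 h2 h12
    rw [ht1 q1 h1, ht1 q2 h2, h12]
  have hcard : (S.image t).card = S.card := Finset.card_image_of_injOn hinj
  have h2 := h x hx0 {F1, F2, F3} (X / b) (S.image t) ⟨F1, by simp⟩ (by rw [hc])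
    (by
      intro g hg
      rw [Finset.mem_insert, Finset.mem_insert, Finset.mem_singleton] at hg
      rcases hg with rfl | rfl | rfl
      · exact ⟨by show 1 ≤ b; omega, hbx.trans hp18, (hq0X.trans hXx).trans hp18⟩
      · exact ⟨by show 1 ≤ a; omega, ha2.trans hp28, hr0x.trans hp48⟩
      · refine ⟨Nat.mul_pos (by omega) (by omega), ?_, ?_⟩
        · calc B * a ≤ x ^ 2 * x ^ 2 := Nat.mul_le_mul hB2 ha2
            _ = x ^ 4 := by ring
            _ ≤ x ^ 8 := hp48
        · show B * r0 + (B - 1) ≤ x ^ 8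
          have h1 : B * r0 ≤ x ^ 6 := by
            calc B * r0 ≤ x ^ 2 * x ^ 4 := Nat.mul_le_mul hB2 hr0x
              _ = x ^ 6 := by ring
          have h3 : x ^ 2 ≤ x ^ 6 := Nat.pow_le_pow_right (by omega) (by norm_num)
          have h4 : 2 * x ^ 6 ≤ x ^ 8 := by
            calc 2 * x ^ 6 ≤ x ^ 2 * x ^ 6 := Nat.mul_le_mul_right _ (by nlinarith)
              _ = x ^ 8 := by ring
          omega)
    (by
      intro g1 h1 g2 h2 h12
      rw [Finset.mem_insert, Finset.mem_insert, Finset.mem_singleton] at h1 h2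
      rcases h1 with h1 | h1 | h1 <;> rcases h2 with h2 | h2 | h2 <;> rw [h1, h2] at h12 ⊢
      · exact absurd rfl h12
      · exact hd12
      · exact hd13
      · exact hd12.symm
      · exact absurd rfl h12
      · exact hd23
      · exact hd13.symm
      · exact hd23.symm
      · exact absurd rfl h12)
    hX
    (by
      intro s hs
      rw [Finset.mem_image] at hs
      obtain ⟨q, hq, rfl⟩ := hs
      refine ⟨ht2 q hq, fun g hg => ?_⟩
      rw [Finset.mem_insert, Finset.mem_insert, Finset.mem_singleton] at hg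
      rcases hg with rfl | rfl | rfl
      · exact ht3 q hq
      · exact ht4 q hq
      · exact ht5 q hq)
  rw [hc, hcard] at h2
  exact h2

end

end Pool.Agent.Helper2.HT
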