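import Pool.Agent.Helper2.HT.S3
import Pool.Agent.Helper65.TOT.Smooth
import Pool.Agent.Helper40.TOT.Squares

set_option autoImplicit false

open Filter Finset

namespace Pool.Agent.Helper2.HT

open Pool.Agent.Helper44.TOT

noncomputable section

theorem t1_wlow {w : ℝ} {n : ℕ} (hn : 2 ≤ n) (h : (P n : ℝ) < w) : wlow w n = Real.log n := by
  unfold wlow
  have h1 : ∀ q ∈ n.primeFactors, (if (q : ℝ) < w then (n.factorization q : ℝ) * Real.log q else 0) =
      (n.factorization q : ℝ) * Real.log q := by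
    intro q hq
    rw [if_pos]
    have h2 : q ≤ P n := le_P (by omega) (Nat.prime_of_mem_primeFactors hq)
      (Nat.dvd_of_mem_primeFactors hq)
    exact lt_of_le_of_lt (by exact_mod_cast h2) h
  rw [Finset.sum_congr rfl h1]
  have h3 : ∏ q ∈ n.primeFactors, q ^ n.factorization q = n :=
    Nat.prod_factorization_pow_eq_self (by omega)
  have h2 : ((∏ q ∈ n.primeFactors, q ^ n.factorization q : ℕ) : ℝ) = n := by
    rw [h3]
  rw [← h2, Nat.cast_prod, Real.log_prod]
  · refine Finset.sum_congr rfl fun q _ => ?_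
    rw [Nat.cast_pow, Real.log_pow]
  · intro q hq
    have := (Nat.prime_of_mem_primeFactors hq).ne_zero
    positivity

theorem t1_div {x d : ℕ} (hd : 1 ≤ d) {S : Finset ℕ} (hS : S ⊆ Icc 1 x) (h : ∀ n ∈ S, d ∣ n) :
    (S.card : ℝ) ≤ x / d.totient := by
  have h1 : S ⊆ (Icc 1 (x / d)).image (fun k => d * k) := by
    intro n hn
    obtain ⟨k, rfl⟩ := h n hn
    have h2 := Finset.mem_Icc.1 (hS hn)
    refine Finset.mem_image.2 ⟨k, Finset.mem_Icc.2 ⟨?_, ?_⟩, rfl⟩
    · rcases Nat.eq_zero_or_pos k with rfl | hk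
      · simp at h2
      · exact hk
    · rw [Nat.le_div_iff_mul_le (by omega), mul_comm]
      exact h2.2
  have h2 : S.card ≤ x / d := by
    refine (Finset.card_le_card h1).trans (Finset.card_image_le.trans ?_)
    rw [Nat.card_Icc, Nat.add_sub_cancel]
  have hd0 : (0 : ℝ) < d := by exact_mod_cast hd
  have ht : (0 : ℝ) < d.totient := by exact_mod_cast Nat.totient_pos.2 (by omega)
  calc (S.card : ℝ) ≤ ((x / d : ℕ) : ℝ) := by exact_mod_cast h2
    _ ≤ x / d := Nat.cast_div_le
    _ ≤ x / d.totient :=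
        div_le_div_of_nonneg_left (Nat.cast_nonneg _) ht (by exact_mod_cast Nat.totient_le d)

theorem t1_ev : ∀ᶠ x : ℕ in atTop, 60 ≤ ll x ∧ 120 * (ll x) ^ 2 ≤ Real.log x ∧ 16 ≤ Real.log x ∧
    2 ≤ x :=
  (tll.eventually_ge_atTop 60).and ((ev_pow 2 120).and
    ((tl.eventually_ge_atTop _).and (eventually_ge_atTop 2)))

theorem t1_harm (x : ℕ) : ∑ m ∈ Icc 2 x, (1 : ℝ) / m ≤ 1 + Real.log x := by
  have h1 : ∑ m ∈ Icc 2 x, (1 : ℝ) / m ≤ ∑ m ∈ Icc 1 x, (1 : ℝ) / m :=
    Finset.sum_le_sum_of_subset_of_nonneg (Finset.Icc_subset_Icc_left (by norm_num))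
      fun _ _ _ => by positivity
  refine h1.trans ?_
  have h2 := harmonic_le_one_add_log x
  have h3 : ((harmonic x : ℚ) : ℝ) = ∑ m ∈ Icc 1 x, (1 : ℝ) / m := by
    rw [harmonic_eq_sum_Icc]
    push_cast
    exact Finset.sum_congr rfl fun m _ => by rw [one_div]
  rw [← h3]
  exact h2

/-- PIECE T1. PROOF. Put `L = log x`, `u = 1 / (60 * ll x)`, `w = x ^ u`. Split the set of `n`:
(a) primes: `Pool.Agent.Helper91.TOT.cheb`; (b) `n ≤ √x`: at most `√x`; (c) `n > √x` all of whose
prime factors are `< w` (that is `P n < w`): then `wlow w n = log n ≥ L / 2 > L / 20`, so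
`Pool.Agent.Helper65.TOT.smooth Pool.Agent.Helper91.TOT.logSum` with `A = 2`, `N = Icc 1 x`,
`D = x`, `η = 1 / 20` bounds them by `C7 x exp (- 3 ll x) = C7 x / L ^ 3`; (d) `P n ≥ w` and
`(P n) ^ 2 ∣ n`: at most `2 x / w` by `Pool.Agent.Helper40.TOT.squares`; (e) the rest:
`n = m q` with `q = P n ≥ w`, `m = cof n`, `¬ q ∣ m`, `2 ≤ m ≤ x`, `q ≤ x / m` (so
`x / m ≥ w ≥ exp (L / (ll x) ^ 2)`) and `f n = σ(m) q + (σ(m) - 1)` prime (`f_mul`): for each `m`
at most `(x / m) ((ll x) ^ C / L) ^ 2` by `pairs 2`; sum over `m ≤ x` with `∑ 1/m ≤ 1 + L`. -/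
theorem t1 : ∃ C X0 : ℕ, ∀ x : ℕ, X0 ≤ x →
    (((Icc 2 x).filter (fun n => n.Prime ∨ (f n).Prime)).card : ℝ) ≤
      x * (ll x) ^ C / Real.log x := by
  classical
  obtain ⟨C, X1, hpairs⟩ := pairs 2
  obtain ⟨C7, hC7, hsm⟩ := Pool.Agent.Helper65.TOT.smooth Pool.Agent.Helper91.TOT.logSum
  obtain ⟨X2, hsm⟩ := hsm 2
  obtain ⟨X3, hX3⟩ := eventually_atTop.1 (t1_ev.and (tll.eventually_ge_atTop (12 + C7)))
  refine ⟨2 * C + 1, max X1 (max X2 X3), fun x hx => ?_⟩
  have hx1 : X1 ≤ x := (le_max_left _ _).trans hx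
  have hx2 : X2 ≤ x := (le_max_left _ _).trans ((le_max_right _ _).trans hx)
  obtain ⟨⟨hl60, hl2, hL16, hx2'⟩, hlC⟩ := hX3 x ((le_max_right _ _).trans ((le_max_right _ _).trans hx))
  set L := Real.log x with hL
  set l := ll x with hl
  have hx0 : (0 : ℝ) < x := by exact_mod_cast (by omega : 0 < x)
  have hL0 : 0 < L := by linarith
  have hl0 : 0 < l := by linarith
  have hlL : Real.exp l = L := by
    rw [hl]
    unfold ll
    rw [← hL, Real.exp_log hL0]
  set u : ℝ := 1 / (60 * l) with hu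
  have hu0 : 0 < u := by positivity
  set w : ℝ := (x : ℝ) ^ u with hw
  have hwe : w = Real.exp (L / (60 * l)) := by
    rw [hw, Real.rpow_def_of_pos hx0, ← hL, hu]
    congr 1
    ring
  have hwL : L ^ 2 ≤ w := by
    rw [hwe, ← hlL, ← Real.exp_nat_mul]
    refine Real.exp_le_exp.2 ?_
    rw [le_div_iff₀ (by positivity)]
    rw [hlL]
    push_cast
    nlinarith
  have hw2L : 2 * L ≤ w := by nlinarith
  have hw2 : 2 ≤ w := by nlinarith
  have hsq : w ≤ √(x : ℝ) := by
    rw [Real.sqrt_eq_rpow, hw]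
    refine Real.rpow_le_rpow_of_exponent_le (by exact_mod_cast (by omega : 1 ≤ x)) ?_
    rw [hu, div_le_div_iff₀ (by positivity) (by norm_num)]
    linarith
  have hsx : √(x : ℝ) * √(x : ℝ) = x := Real.mul_self_sqrt hx0.le
  have hs0 : 0 < √(x : ℝ) := Real.sqrt_pos.2 hx0
  -- the parts
  set A1 : Finset ℕ := (Icc 1 x).filter Nat.Prime with hA1
  set A2 : Finset ℕ := Icc 1 ⌊√(x : ℝ)⌋₊ with hA2
  set A3 : Finset ℕ := (Icc 2 x).filter (fun n => √(x : ℝ) < n ∧ (P n : ℝ) < w) with hA3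
  set A4 : Finset ℕ := (Icc 2 x).filter (fun n => w ≤ P n ∧ (P n) ^ 2 ∣ n) with hA4
  set A5 : Finset ℕ := (Icc 2 x).filter
    (fun n => w ≤ P n ∧ ¬ (P n) ^ 2 ∣ n ∧ ¬ n.Prime ∧ (f n).Prime) with hA5
  have hcov : (Icc 2 x).filter (fun n => n.Prime ∨ (f n).Prime) ⊆ A1 ∪ (A2 ∪ (A3 ∪ (A4 ∪ A5))) := by
    intro n hn
    rw [Finset.mem_filter] at hn
    obtain ⟨hn1, hn2⟩ := hn
    have hn1' := Finset.mem_Icc.1 hn1
    simp only [Finset.mem_union]
    by_cases hp : n.Prime
    · exact Or.inl (Finset.mem_filter.2 ⟨Finset.mem_Icc.2 ⟨by omega, hn1'.2⟩, hp⟩)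
    have hfp : (f n).Prime := by
      rcases hn2 with h | h
      · exact absurd h hp
      · exact h
    by_cases hb : √(x : ℝ) < n
    · by_cases hc : (P n : ℝ) < w
      · exact Or.inr (Or.inr (Or.inl (Finset.mem_filter.2 ⟨hn1, hb, hc⟩)))
      · rw [not_lt] at hc
        by_cases hd : (P n) ^ 2 ∣ n
        · exact Or.inr (Or.inr (Or.inr (Or.inl (Finset.mem_filter.2 ⟨hn1, hc, hd⟩))))
        · exact Or.inr (Or.inr (Or.inr (Or.inr (Finset.mem_filter.2 ⟨hn1, hc, hd, hp, hfp⟩))))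
    · rw [not_lt] at hb
      exact Or.inr (Or.inl (Finset.mem_Icc.2 ⟨by omega, Nat.le_floor hb⟩))
  have hxL0 : 0 ≤ x / L := by positivity
  have b1 : (A1.card : ℝ) ≤ 6 * (x / L) := Pool.Agent.Helper91.TOT.cheb_six x hx2'
  have hsxL : √(x : ℝ) ≤ x / L := by
    rw [le_div_iff₀ hL0]
    have h1 : L ≤ √(x : ℝ) := by nlinarith
    calc √(x : ℝ) * L ≤ √(x : ℝ) * √(x : ℝ) := by gcongr
      _ = x := hsx
  have b2 : (A2.card : ℝ) ≤ x / L := by
    rw [hA2, Nat.card_Icc, Nat.add_sub_cancel]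
    exact (Nat.floor_le hs0.le).trans hsxL
  have b3 : (A3.card : ℝ) ≤ C7 * (x / L) := by
    have h1 := hsm x (Icc 1 x) x u (1 / 20) A3 hx2 hx0.le (fun n hn => (Finset.mem_Icc.1 hn).1)
      (fun d S hd _ hS hdv => t1_div hd hS hdv)
      (by
        rw [hu]
        apply one_div_le_one_div_of_le (by positivity)
        rw [← hl]
        nlinarith)
      (by
        rw [hu]
        exact one_div_le_one_div_of_le (by norm_num) (by linarith))
      (by
        rw [hu]
        exact one_div_le_one_div_of_le (by norm_num) (by linarith))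
      le_rfl
      (by
        intro n hn
        have := Finset.mem_Icc.1 (Finset.mem_filter.1 hn).1
        exact Finset.mem_Icc.2 ⟨by omega, this.2⟩)
      (by
        intro n hn
        obtain ⟨h2, h3, h4⟩ := Finset.mem_filter.1 hn
        have h2' := Finset.mem_Icc.1 h2
        rw [← hw, t1_wlow h2'.1 h4, ← hL]
        have h5 : Real.log √(x : ℝ) < Real.log n := Real.log_lt_log hs0 h3
        rw [Real.log_sqrt hx0.le, ← hL] at h5
        linarith)
    have h2 : (1 / 20 : ℝ) / u = 3 * l := by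
      rw [hu]
      field_simp
      norm_num
    rw [h2] at h1
    have h3 : Real.exp (-(3 * l)) ≤ 1 / L := by
      have h4 : Real.exp (-(3 * l)) ≤ Real.exp (-l) := Real.exp_le_exp.2 (by linarith)
      rw [Real.exp_neg l, hlL] at h4
      rwa [one_div]
    calc (A3.card : ℝ) ≤ C7 * x * Real.exp (-(3 * l)) := h1
      _ ≤ C7 * x * (1 / L) := by gcongr
      _ = C7 * (x / L) := by ring
  have b4 : (A4.card : ℝ) ≤ x / L := by
    have h1 := Pool.Agent.Helper40.TOT.squares (x : ℝ) w A4 hw2 hx0.le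
      (by
        intro n hn
        obtain ⟨h2, h3, h4⟩ := Finset.mem_filter.1 hn
        have h2' := Finset.mem_Icc.1 h2
        exact ⟨by omega, by exact_mod_cast h2'.2, P n, P_prime h2'.1, h3, h4⟩)
    refine h1.trans ?_
    rw [div_le_div_iff₀ (by linarith) hL0]
    nlinarith
  have b5 : (A5.card : ℝ) ≤ 2 * l ^ (2 * C) * (x / L) := by
    have h1 : A5.card ≤ ∑ m ∈ Icc 2 x, (A5.filter (fun n => cof n = m)).card := by
      refine (Finset.card_eq_sum_card_fiberwise (f := cof) (t := Icc 2 x) ?_).le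
      intro n hn
      obtain ⟨h2, h3, h4, h5, h6⟩ := Finset.mem_filter.1 hn
      have h2' := Finset.mem_Icc.1 h2
      exact Finset.mem_coe.2 (Finset.mem_Icc.2 ⟨cof_ge h2'.1 h5, cof_le.trans h2'.2⟩)
    have h2 : ∀ m ∈ Icc 2 x, ((A5.filter (fun n => cof n = m)).card : ℝ) ≤
        (1 / (m : ℝ)) * (x * (l ^ C / L) ^ 2) := by
      intro m hm
      have hm' := Finset.mem_Icc.1 hm
      have hm0 : (0 : ℝ) < m := by exact_mod_cast (by omega : 0 < m)
      rcases (A5.filter (fun n => cof n = m)).eq_empty_or_nonempty with he | ⟨n0, hn0⟩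
      · rw [he, Finset.card_empty, Nat.cast_zero]
        positivity
      · have hmem : ∀ n ∈ A5.filter (fun n => cof n = m), 2 ≤ n ∧ n ≤ x ∧ m * P n = n ∧ w ≤ P n ∧
            ¬ P n ∣ m ∧ (f n).Prime := by
          intro n hn
          obtain ⟨h3, h4⟩ := Finset.mem_filter.1 hn
          obtain ⟨h5, h6, h7, h8, h9⟩ := Finset.mem_filter.1 h3
          have h5' := Finset.mem_Icc.1 h5
          have h10 : m * P n = n := by rw [← h4]; exact cof_mul h5'.1
          refine ⟨h5'.1, h5'.2, h10, h6, fun h11 => h7 ?_, h9⟩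
          have h12 := Nat.mul_dvd_mul_right h11 (P n)
          rw [h10, ← pow_two] at h12
          exact h12
        set S : Finset ℕ := (A5.filter (fun n => cof n = m)).image P with hS
        have hcard : S.card = (A5.filter (fun n => cof n = m)).card := by
          refine Finset.card_image_of_injOn ?_
          intro n hn n' hn' he
          rw [← (hmem n hn).2.2.1, ← (hmem n' hn').2.2.1]
          exact congrArg (fun q => m * q) he
        have hle : ∀ n ∈ A5.filter (fun n => cof n = m), P n ≤ x / m := by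
          intro n hn
          obtain ⟨h3, h4, h5, _⟩ := hmem n hn
          rw [Nat.le_div_iff_mul_le (by omega), mul_comm, h5]
          exact h4
        have h3 := hpairs x hx1 m (x / m) S hm'.1 hm'.2
          (by
            obtain ⟨_, _, _, h4, _⟩ := hmem n0 hn0
            have h5 : w ≤ ((x / m : ℕ) : ℝ) := h4.trans (by exact_mod_cast hle n0 hn0)
            refine le_trans ?_ h5
            rw [hwe]
            refine Real.exp_le_exp.2 ?_
            rw [← hL, ← hl]
            refine div_le_div_of_nonneg_left hL0.le (by positivity) ?_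
            nlinarith)
          (by
            intro q hq
            obtain ⟨n, hn, rfl⟩ := Finset.mem_image.1 hq
            obtain ⟨h4, h5, h6, h7, h8, h9⟩ := hmem n hn
            refine ⟨hle n hn, P_prime h4, ?_⟩
            rw [← f_mul (by omega) (P_prime h4) h8, h6]
            exact h9)
        rw [hcard, ← hL, ← hl] at h3
        refine h3.trans ?_
        have h4 : ((x / m : ℕ) : ℝ) ≤ x / m := Nat.cast_div_le
        calc ((x / m : ℕ) : ℝ) * (l ^ C / L) ^ 2 ≤ (x / m) * (l ^ C / L) ^ 2 := by gcongr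
          _ = (1 / (m : ℝ)) * (x * (l ^ C / L) ^ 2) := by ring
    calc (A5.card : ℝ) ≤ ∑ m ∈ Icc 2 x, ((A5.filter (fun n => cof n = m)).card : ℝ) := by
          exact_mod_cast h1
      _ ≤ ∑ m ∈ Icc 2 x, (1 / (m : ℝ)) * (x * (l ^ C / L) ^ 2) := Finset.sum_le_sum h2
      _ = (∑ m ∈ Icc 2 x, (1 / (m : ℝ))) * (x * (l ^ C / L) ^ 2) := by rw [Finset.sum_mul]
      _ ≤ (1 + L) * (x * (l ^ C / L) ^ 2) :=
          mul_le_mul_of_nonneg_right (t1_harm x) (by positivity)
      _ ≤ (2 * L) * (x * (l ^ C / L) ^ 2) := by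
          refine mul_le_mul_of_nonneg_right (by linarith) (by positivity)
      _ = 2 * l ^ (2 * C) * (x / L) := by
          rw [div_pow, ← pow_mul, mul_comm C 2]
          field_simp
  have hfin : (((Icc 2 x).filter (fun n => n.Prime ∨ (f n).Prime)).card : ℝ) ≤
      6 * (x / L) + (x / L + (C7 * (x / L) + (x / L + 2 * l ^ (2 * C) * (x / L)))) := by
    have h1 := Finset.card_le_card hcov
    have h2 : (A1 ∪ (A2 ∪ (A3 ∪ (A4 ∪ A5)))).card ≤
        A1.card + (A2.card + (A3.card + (A4.card + A5.card))) := by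
      refine (Finset.card_union_le _ _).trans (Nat.add_le_add_left ?_ _)
      refine (Finset.card_union_le _ _).trans (Nat.add_le_add_left ?_ _)
      refine (Finset.card_union_le _ _).trans (Nat.add_le_add_left ?_ _)
      exact Finset.card_union_le _ _
    have h3 : (((Icc 2 x).filter (fun n => n.Prime ∨ (f n).Prime)).card : ℝ) ≤
        A1.card + (A2.card + (A3.card + (A4.card + A5.card))) := by
      exact_mod_cast h1.trans h2
    linarith
  refine hfin.trans ?_
  have hpow : 1 ≤ l ^ (2 * C) := one_le_pow₀ (by linarith)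
  have hkey : 8 + C7 + 2 * l ^ (2 * C) ≤ l ^ (2 * C + 1) := by
    rw [pow_succ]
    have h1 : (12 + C7) * l ^ (2 * C) ≤ l ^ (2 * C) * l := by
      rw [mul_comm]
      exact mul_le_mul_of_nonneg_left hlC (by positivity)
    nlinarith
  calc 6 * (x / L) + (x / L + (C7 * (x / L) + (x / L + 2 * l ^ (2 * C) * (x / L))))
      = (8 + C7 + 2 * l ^ (2 * C)) * (x / L) := by ring
    _ ≤ l ^ (2 * C + 1) * (x / L) := mul_le_mul_of_nonneg_right hkey hxL0
    _ = x * l ^ (2 * C + 1) / L := by ring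

end

end Pool.Agent.Helper2.HT
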