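import Pool.Agent.Helper2.HT.S3
import Pool.Agent.Helper2.HT.T1
import Pool.Agent.Helper65.TOT.Smooth
import Pool.Agent.Helper40.TOT.Squares

set_option autoImplicit false

open Filter Finset

namespace Pool.Agent.Helper2.HT

open Pool.Agent.Helper44.TOT

noncomputable section

/-- primes `p ≤ x` with `d ∣ a p + (a - 1)` lie in one residue class -/
theorem t2_class {x d a : ℕ} (hd : 1 ≤ d) (ha : 1 ≤ a) (hdx : d ≤ x) {S : Finset ℕ}
    (hS : ∀ p ∈ S, 1 ≤ p ∧ p ≤ x ∧ d ∣ a * p + (a - 1)) : (S.card : ℝ) ≤ 2 * x / d.totient := by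
  have hd0 : (0 : ℝ) < d := by exact_mod_cast hd
  have ht : (0 : ℝ) < d.totient := by exact_mod_cast Nat.totient_pos.2 (by omega)
  rcases S.eq_empty_or_nonempty with rfl | hne
  · rw [Finset.card_empty, Nat.cast_zero]
    positivity
  set p0 := S.min' hne with hp0
  have hp0S : p0 ∈ S := Finset.min'_mem S hne
  obtain ⟨h1, h2, h3⟩ := hS p0 hp0S
  have hcop : Nat.Coprime d a := by
    have h4 : Nat.gcd d a ∣ 1 := by
      have h5 : Nat.gcd d a ∣ a * p0 + (a - 1) := (Nat.gcd_dvd_left d a).trans h3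
      have h6 : Nat.gcd d a ∣ a * (p0 + 1) := (Nat.gcd_dvd_right d a).mul_right _
      have h7 : a * (p0 + 1) = (a * p0 + (a - 1)) + 1 := by
        rw [mul_add, mul_one]
        omega
      rw [h7] at h6
      exact (Nat.dvd_add_right h5).1 h6
    exact Nat.dvd_one.1 h4
  have hsub : S ⊆ (Finset.range (x / d + 1)).image (fun k => p0 + d * k) := by
    intro p hp
    obtain ⟨h4, h5, h6⟩ := hS p hp
    have hle : p0 ≤ p := Finset.min'_le S p hp
    obtain ⟨e, rfl⟩ := Nat.exists_eq_add_of_le hle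
    have h7 : d ∣ a * e := by
      have h8 : a * (p0 + e) + (a - 1) = (a * p0 + (a - 1)) + a * e := by ring
      rw [h8] at h6
      exact (Nat.dvd_add_right h3).1 h6
    obtain ⟨k, rfl⟩ := (Nat.Coprime.dvd_mul_left hcop).1 h7
    refine Finset.mem_image.2 ⟨k, ?_, rfl⟩
    rw [Finset.mem_range, Nat.lt_succ_iff, Nat.le_div_iff_mul_le (by omega)]
    calc k * d = d * k := mul_comm _ _
      _ ≤ p0 + d * k := Nat.le_add_left _ _
      _ ≤ x := h5
  have hcard : S.card ≤ x / d + 1 := by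
    refine (Finset.card_le_card hsub).trans (Finset.card_image_le.trans ?_)
    rw [Finset.card_range]
  have h4 : (1 : ℝ) ≤ x / d := by
    rw [le_div_iff₀ hd0, one_mul]
    exact_mod_cast hdx
  calc (S.card : ℝ) ≤ ((x / d + 1 : ℕ) : ℝ) := by exact_mod_cast hcard
    _ = ((x / d : ℕ) : ℝ) + 1 := by push_cast; ring
    _ ≤ x / d + x / d := add_le_add Nat.cast_div_le h4
    _ = 2 * x / d := by ring
    _ ≤ 2 * x / d.totient :=
        div_le_div_of_nonneg_left (by positivity) ht (by exact_mod_cast Nat.totient_le d)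

theorem t2_ev : ∀ᶠ x : ℕ in atTop, 240 ≤ ll x ∧ 230400 * (ll x) ^ 2 ≤ Real.log x ∧ 16 ≤ Real.log x ∧
    2 ≤ x :=
  (tll.eventually_ge_atTop 240).and ((ev_pow 2 230400).and
    ((tl.eventually_ge_atTop _).and (eventually_ge_atTop 2)))

/-- PIECE T2. PROOF. Put `L = log x`, `a = σ(m) ≤ m ^ 2 ≤ exp (2 √L)`, `u = 1 / (60 * ll x)`,
`w = x ^ u` (so `w` is far larger than `a ^ 10`). For a prime `p ≤ x` put
`N = a p + (a - 1) = a (p + 1) - 1`, so `N = f (m p)` if `¬ p ∣ m` (`f_mul`). Split the primes: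
(a) `p ≤ √x`; (b) `p ∣ m`: at most `m ≤ exp √L` of them; (c) `N` prime: `pairs 2` with `X = x`;
(d) `P N < w`, `p > √x`: `Pool.Agent.Helper65.TOT.smooth Pool.Agent.Helper91.TOT.logSum` with
`A = 2`, the set of all values `N`, `D = 2 x`, `η = 1 / 20` (`d ∣ a (p + 1) - 1` puts `p` in one
residue class modulo `d`, as `d` is prime to `a`: at most `x / d + 1 ≤ 2 x / d ≤ 2 x / φ(d)`
values of `p` for `d ≤ x ^ (9/10)`); `wlow w N = log N ≥ L / 2`; this gives
`2 C7 x exp (- 3 ll x) = 2 C7 x / L ^ 3`; (e) `r = P N ≥ w` and `r ^ 2 ∣ N`: then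
`w ≤ r ≤ x ^ (2/3)` and for each `r` at most `x / r ^ 2 + 1` primes `p`; (f) the rest: `N = b r`,
`b = cof N`, `¬ r ∣ b`, `2 ≤ b ≤ N / w ≤ x / w ^ (1/2)`, `f N = σ(b) r + (σ(b) - 1)` prime
(`f_mul`): for each `b` at most `(x / b) ((ll x) ^ C / L) ^ 3` by `triples 2` with `X = x`; sum over
`b ≤ x` with `∑ 1/b ≤ 1 + L`. -/
theorem t2 : ∃ C X0 : ℕ, ∀ x : ℕ, X0 ≤ x → ∀ m : ℕ, 2 ≤ m → (m : ℝ) ≤ Real.exp √(Real.log x) →
    (((Icc 1 x).filter (fun p => p.Prime ∧ ((f (m * p)).Prime ∨ (f (f (m * p))).Prime))).card : ℝ) ≤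
      x * (ll x) ^ C / (Real.log x) ^ 2 := by
  classical
  obtain ⟨C, X1, hpairs⟩ := pairs 2
  obtain ⟨C', X1', htri⟩ := triples 2
  obtain ⟨C7, hC7, hsm⟩ := Pool.Agent.Helper65.TOT.smooth Pool.Agent.Helper91.TOT.logSum
  obtain ⟨X2, hsm⟩ := hsm 2
  obtain ⟨X3, hX3⟩ := eventually_atTop.1 (t2_ev.and (tll.eventually_ge_atTop (5 + 2 * C7)))
  refine ⟨2 * C + 3 * C' + 1, max (max X1 X1') (max X2 X3), fun x hx m hm hmx => ?_⟩
  have hx1 : X1 ≤ x := (le_max_left _ _).trans ((le_max_left _ _).trans hx)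
  have hx1' : X1' ≤ x := (le_max_right _ _).trans ((le_max_left _ _).trans hx)
  have hx2 : X2 ≤ x := (le_max_left _ _).trans ((le_max_right _ _).trans hx)
  obtain ⟨⟨hl240, hl2, hL16, hx2'⟩, hlC⟩ :=
    hX3 x ((le_max_right _ _).trans ((le_max_right _ _).trans hx))
  set L := Real.log x with hL
  set l := ll x with hl
  have hx0 : (0 : ℝ) < x := by exact_mod_cast (by omega : 0 < x)
  have hx1R : (1 : ℝ) ≤ x := by exact_mod_cast (by omega : 1 ≤ x)
  have hL0 : 0 < L := by linarith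
  have hl0 : 0 < l := by linarith
  have hlL : Real.exp l = L := by
    rw [hl]
    unfold ll
    rw [← hL, Real.exp_log hL0]
  have hxe : Real.exp L = x := by rw [hL, Real.exp_log hx0]
  set R := √L with hR
  have hR0 : 0 ≤ R := Real.sqrt_nonneg _
  have hRR : R * R = L := Real.mul_self_sqrt hL0.le
  have hF1 : 480 * l ≤ R := by
    apply Real.le_sqrt_of_sq_le
    nlinarith
  have hF2 : 2 * R + 2 * l + 2 ≤ L / (120 * l) := by
    rw [le_div_iff₀ (by positivity)]
    nlinarith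
  set u : ℝ := 1 / (60 * l) with hu
  have hu0 : 0 < u := by positivity
  set w : ℝ := (x : ℝ) ^ u with hw
  have hwe : w = Real.exp (L / (60 * l)) := by
    rw [hw, Real.rpow_def_of_pos hx0, ← hL, hu]
    congr 1
    ring
  set v : ℝ := Real.exp (L / (120 * l)) with hv
  have hvv : v * v = w := by
    rw [hwe, hv, ← Real.exp_add]
    congr 1
    field_simp
    norm_num
  set a := ArithmeticFunction.sigma 1 m with ha
  have ha3 : m + 1 ≤ a := sig_ge hm
  have ham : a ≤ m ^ 2 := sig_le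
  have haR : (a : ℝ) ≤ Real.exp (2 * R) := by
    have h1 : (a : ℝ) ≤ (m : ℝ) ^ 2 := by exact_mod_cast ham
    refine h1.trans ?_
    rw [two_mul, Real.exp_add, ← sq]
    exact pow_le_pow_left₀ (Nat.cast_nonneg _) hmx 2
  have ha0 : (0 : ℝ) < a := by exact_mod_cast (by omega : 0 < a)
  have ha1 : (1 : ℝ) ≤ a := by exact_mod_cast (by omega : 1 ≤ a)
  have hLe : L ^ 2 = Real.exp (2 * l) := by
    rw [two_mul, Real.exp_add, hlL, sq]
  have he2 : (4 : ℝ) ≤ Real.exp 2 := by
    have h1 : (2 : ℝ) ≤ Real.exp 1 := by linarith [Real.add_one_le_exp (1 : ℝ)]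
    have h2 : Real.exp 2 = Real.exp 1 * Real.exp 1 := by rw [← Real.exp_add]; norm_num
    rw [h2]
    nlinarith
  have hF3 : 4 * a * L ^ 2 ≤ v := by
    calc 4 * a * L ^ 2 ≤ Real.exp 2 * Real.exp (2 * R) * Real.exp (2 * l) := by
          rw [hLe]
          gcongr
      _ = Real.exp (2 * R + 2 * l + 2) := by
          rw [← Real.exp_add, ← Real.exp_add]
          congr 1
          ring
      _ ≤ v := Real.exp_le_exp.2 hF2
  have hL2 : 256 ≤ L ^ 2 := by
    have h1 := pow_le_pow_left₀ (by norm_num) hL16 2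
    norm_num at h1
    exact h1
  have hv1 : 4 * L ^ 2 ≤ v := by
    refine le_trans ?_ hF3
    have h1 := mul_le_mul_of_nonneg_right ha1 (by positivity : 0 ≤ 4 * L ^ 2)
    linarith
  have hv0 : 1 ≤ v := by linarith
  have hvw : v ≤ w := by
    rw [← hvv]
    exact le_mul_of_one_le_left (by linarith) hv0
  have hw2 : 2 ≤ w := by linarith
  have hmsx : (m : ℝ) ≤ √(x : ℝ) := by
    refine hmx.trans ?_
    rw [← hxe, ← Real.exp_half]
    refine Real.exp_le_exp.2 ?_
    nlinarith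
  have hmx' : m ≤ x := by
    have h1 : √(x : ℝ) ≤ x := by
      rw [Real.sqrt_le_left hx0.le]
      nlinarith
    have h2 : (m : ℝ) ≤ (x : ℝ) := hmsx.trans h1
    exact Nat.cast_le.1 h2
  have hsx : √(x : ℝ) * √(x : ℝ) = x := Real.mul_self_sqrt hx0.le
  have hs0 : 0 < √(x : ℝ) := Real.sqrt_pos.2 hx0
  have hLsx : L ^ 2 ≤ √(x : ℝ) := by
    rw [hLe, ← hxe, ← Real.exp_half]
    refine Real.exp_le_exp.2 ?_
    nlinarith
  -- the values
  set Nf : ℕ → ℕ := fun p => a * p + (a - 1) with hNf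
  have hNinj : Function.Injective Nf := by
    intro p q h
    simp only [hNf] at h
    have h1 : a * p = a * q := by omega
    exact Nat.eq_of_mul_eq_mul_left (by omega) h1
  have hNge : ∀ p, 1 ≤ p → p ≤ Nf p ∧ 2 ≤ Nf p := by
    intro p hp
    have h1 : 1 * p ≤ a * p := Nat.mul_le_mul_right _ (by omega)
    constructor
    · simp only [hNf]
      omega
    · simp only [hNf]
      omega
  have hNle : ∀ p, p ≤ x → (Nf p : ℝ) ≤ a * (x + 1) := by
    intro p hp
    have h1 : a * p + (a - 1) ≤ a * (x + 1) := by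
      have h2 : a * p ≤ a * x := Nat.mul_le_mul_left _ hp
      rw [mul_add, mul_one]
      omega
    exact_mod_cast h1
  set B : Finset ℕ := (Icc 1 x).filter (fun p => p.Prime ∧ √(x : ℝ) < p) with hB
  have hBm : ∀ p ∈ B, 1 ≤ p ∧ p ≤ x ∧ p.Prime ∧ √(x : ℝ) < p := by
    intro p hp
    obtain ⟨h1, h2, h3⟩ := Finset.mem_filter.1 hp
    have := Finset.mem_Icc.1 h1
    exact ⟨this.1, this.2, h2, h3⟩
  have hBf : ∀ p ∈ B, f (m * p) = Nf p := by
    intro p hp
    obtain ⟨h1, h2, h3, h4⟩ := hBm p hp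
    refine f_mul (by omega) h3 ?_
    intro h5
    have h6 : p ≤ m := Nat.le_of_dvd (by omega) h5
    have h7 : (p : ℝ) ≤ m := by exact_mod_cast h6
    linarith
  -- the parts
  set A2 : Finset ℕ := Icc 1 ⌊√(x : ℝ)⌋₊ with hA2
  set A1 : Finset ℕ := B.filter (fun p => (Nf p).Prime) with hA1
  set A3 : Finset ℕ := B.filter (fun p => (P (Nf p) : ℝ) < w) with hA3
  set A4 : Finset ℕ := B.filter (fun p => w ≤ P (Nf p) ∧ (P (Nf p)) ^ 2 ∣ Nf p) with hA4
  set A5 : Finset ℕ := B.filter (fun p => w ≤ P (Nf p) ∧ ¬ (P (Nf p)) ^ 2 ∣ Nf p ∧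
    ¬ (Nf p).Prime ∧ (f (Nf p)).Prime) with hA5
  have hcov : (Icc 1 x).filter (fun p => p.Prime ∧ ((f (m * p)).Prime ∨ (f (f (m * p))).Prime)) ⊆
      A1 ∪ (A2 ∪ (A3 ∪ (A4 ∪ A5))) := by
    intro p hp
    obtain ⟨hp1, hp2, hp3⟩ := Finset.mem_filter.1 hp
    have hp1' := Finset.mem_Icc.1 hp1
    simp only [Finset.mem_union]
    by_cases hb : √(x : ℝ) < p
    · have hpB : p ∈ B := Finset.mem_filter.2 ⟨hp1, hp2, hb⟩
      rw [hBf p hpB] at hp3
      by_cases hN : (Nf p).Prime
      · exact Or.inl (Finset.mem_filter.2 ⟨hpB, hN⟩)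
      have hfp : (f (Nf p)).Prime := by
        rcases hp3 with h | h
        · exact absurd h hN
        · exact h
      by_cases hc : (P (Nf p) : ℝ) < w
      · exact Or.inr (Or.inr (Or.inl (Finset.mem_filter.2 ⟨hpB, hc⟩)))
      · rw [not_lt] at hc
        by_cases hd : (P (Nf p)) ^ 2 ∣ Nf p
        · exact Or.inr (Or.inr (Or.inr (Or.inl (Finset.mem_filter.2 ⟨hpB, hc, hd⟩))))
        · exact Or.inr (Or.inr (Or.inr (Or.inr (Finset.mem_filter.2 ⟨hpB, hc, hd, hN, hfp⟩))))
    · rw [not_lt] at hb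
      exact Or.inr (Or.inl (Finset.mem_Icc.2 ⟨hp1'.1, Nat.le_floor hb⟩))
  have hL20 : 0 < L ^ 2 := by positivity
  have hxL0 : 0 ≤ x / L ^ 2 := by positivity
  have b1 : (A1.card : ℝ) ≤ l ^ (2 * C) * (x / L ^ 2) := by
    have h1 := hpairs x hx1 m x A1 hm hmx'
      (by
        rw [← hL, ← hl, ← hxe]
        refine Real.exp_le_exp.2 ?_
        rw [div_le_iff₀ (by positivity)]
        exact le_mul_of_one_le_right hL0.le (one_le_pow₀ (by linarith)))
      (by
        intro q hq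
        obtain ⟨h2, h3⟩ := Finset.mem_filter.1 hq
        obtain ⟨h4, h5, h6, h7⟩ := hBm q h2
        exact ⟨h5, h6, h3⟩)
    rw [← hL, ← hl] at h1
    refine h1.trans (le_of_eq ?_)
    rw [div_pow, ← pow_mul, mul_comm C 2]
    ring
  have b2 : (A2.card : ℝ) ≤ x / L ^ 2 := by
    rw [hA2, Nat.card_Icc, Nat.add_sub_cancel]
    refine (Nat.floor_le hs0.le).trans ?_
    rw [le_div_iff₀ hL20]
    calc √(x : ℝ) * L ^ 2 ≤ √(x : ℝ) * √(x : ℝ) := by gcongr
      _ = x := hsx
  have b3 : (A3.card : ℝ) ≤ 2 * C7 * (x / L ^ 2) := by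
    have h0 : (A3.image Nf).card = A3.card := Finset.card_image_of_injective _ hNinj
    have h1 := hsm x (B.image Nf) (2 * x) u (1 / 20) (A3.image Nf) hx2 (by positivity)
      (by
        intro n hn
        obtain ⟨p, hp, rfl⟩ := Finset.mem_image.1 hn
        have := (hNge p (hBm p hp).1).2
        omega)
      (by
        intro d S hd hdx hS hdv
        have hdx' : d ≤ x := by
          have h2 : (x : ℝ) ^ ((9 : ℝ) / 10) ≤ (x : ℝ) ^ (1 : ℝ) :=
            Real.rpow_le_rpow_of_exponent_le hx1R (by norm_num)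
          rw [Real.rpow_one] at h2
          exact_mod_cast hdx.trans h2
        have h3 : S.card ≤ (B.filter (fun p => Nf p ∈ S)).card := by
          have h4 : S ⊆ (B.filter (fun p => Nf p ∈ S)).image Nf := by
            intro n hn
            obtain ⟨p, hp, rfl⟩ := Finset.mem_image.1 (hS hn)
            exact Finset.mem_image.2 ⟨p, Finset.mem_filter.2 ⟨hp, hn⟩, rfl⟩
          exact (Finset.card_le_card h4).trans Finset.card_image_le
        have h5 := t2_class hd (by omega : 1 ≤ a) hdx' (S := B.filter (fun p => Nf p ∈ S))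
          (by
            intro p hp
            obtain ⟨h6, h7⟩ := Finset.mem_filter.1 hp
            obtain ⟨h8, h9, -, -⟩ := hBm p h6
            exact ⟨h8, h9, hdv _ h7⟩)
        have h6 : (S.card : ℝ) ≤ ((B.filter (fun p => Nf p ∈ S)).card : ℝ) := by
          exact_mod_cast h3
        exact h6.trans h5)
      (by
        rw [hu]
        apply one_div_le_one_div_of_le (by positivity)
        rw [← hl]
        nlinarith)
      (by
        rw [hu]
        exact one_div_le_one_div_of_le (by norm_num) (by linarith))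
      (by
        rw [hu]
        exact one_div_le_one_div_of_le (by norm_num) (by linarith))
      le_rfl
      (Finset.image_subset_image (Finset.filter_subset _ _))
      (by
        intro n hn
        obtain ⟨p, hp, rfl⟩ := Finset.mem_image.1 hn
        obtain ⟨h2, h4⟩ := Finset.mem_filter.1 hp
        obtain ⟨h5, h6, h7, h8⟩ := hBm p h2
        obtain ⟨h9, h10⟩ := hNge p h5
        rw [← hw, t1_wlow h10 h4, ← hL]
        have h11 : √(x : ℝ) < Nf p := h8.trans_le (by exact_mod_cast h9)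
        have h12 : Real.log √(x : ℝ) < Real.log (Nf p) := Real.log_lt_log hs0 h11
        rw [Real.log_sqrt hx0.le, ← hL] at h12
        linarith)
    have h2 : (1 / 20 : ℝ) / u = 3 * l := by
      rw [hu]
      field_simp
      norm_num
    rw [h2, h0] at h1
    have h3 : Real.exp (-(3 * l)) ≤ 1 / L ^ 2 := by
      rw [hLe, one_div, ← Real.exp_neg]
      exact Real.exp_le_exp.2 (by linarith)
    calc (A3.card : ℝ) ≤ C7 * (2 * x) * Real.exp (-(3 * l)) := h1
      _ ≤ C7 * (2 * x) * (1 / L ^ 2) := by gcongr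
      _ = 2 * C7 * (x / L ^ 2) := by ring
  have b4 : (A4.card : ℝ) ≤ x / L ^ 2 := by
    have h0 : (A4.image Nf).card = A4.card := Finset.card_image_of_injective _ hNinj
    have h1 := Pool.Agent.Helper40.TOT.squares (a * (x + 1) : ℝ) w (A4.image Nf) hw2
      (by positivity)
      (by
        intro n hn
        obtain ⟨p, hp, rfl⟩ := Finset.mem_image.1 hn
        obtain ⟨h2, h3, h4⟩ := Finset.mem_filter.1 hp
        obtain ⟨h5, h6, h7, h8⟩ := hBm p h2
        have h9 := (hNge p h5).2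
        exact ⟨by omega, hNle p h6, P (Nf p), P_prime h9, h3, h4⟩)
    rw [h0] at h1
    refine h1.trans ?_
    rw [div_le_div_iff₀ (by linarith) hL20]
    calc 2 * ((a : ℝ) * (x + 1)) * L ^ 2 ≤ 2 * (a * (x + x)) * L ^ 2 := by gcongr
      _ = x * (4 * a * L ^ 2) := by ring
      _ ≤ x * w := by
          apply mul_le_mul_of_nonneg_left (hF3.trans hvw) hx0.le
  have b5 : (A5.card : ℝ) ≤ 2 * l ^ (3 * C') * (x / L ^ 2) := by
    have hA5m : ∀ p ∈ A5, p.Prime ∧ p ≤ x ∧ 2 ≤ Nf p ∧ cof (Nf p) * P (Nf p) = Nf p ∧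
        2 ≤ cof (Nf p) ∧ w ≤ P (Nf p) ∧ ¬ P (Nf p) ∣ cof (Nf p) ∧ (f (Nf p)).Prime := by
      intro p hp
      obtain ⟨h2, h3, h4, h5, h6⟩ := Finset.mem_filter.1 hp
      obtain ⟨h7, h8, h9, h10⟩ := hBm p h2
      have h11 := (hNge p h7).2
      have h12 := cof_mul h11
      refine ⟨h9, h8, h11, h12, cof_ge h11 h5, h3, fun h13 => h4 ?_, h6⟩
      have h14 := Nat.mul_dvd_mul_right h13 (P (Nf p))
      rw [h12, ← pow_two] at h14
      exact h14
    have hcofv : ∀ p ∈ A5, (cof (Nf p) : ℝ) * (2 * v) ≤ x := by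
      intro p hp
      obtain ⟨h1, h2, h3, h4, h5, h6, h7, h8⟩ := hA5m p hp
      have h9 : (cof (Nf p) : ℝ) * w ≤ Nf p := by
        calc (cof (Nf p) : ℝ) * w ≤ cof (Nf p) * (P (Nf p) : ℝ) := by gcongr
          _ = Nf p := by exact_mod_cast h4
      have h10 := hNle p h2
      have h11 : (cof (Nf p) : ℝ) * w ≤ 2 * a * x := by
        refine h9.trans (h10.trans ?_)
        nlinarith
      have h12 : 4 * (a : ℝ) ≤ v := by nlinarith
      have h13 : (cof (Nf p) : ℝ) * (2 * v) * (2 * a) ≤ x * (2 * a) := by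
        calc (cof (Nf p) : ℝ) * (2 * v) * (2 * a) = cof (Nf p) * v * (4 * a) := by ring
          _ ≤ cof (Nf p) * v * v := by gcongr
          _ = cof (Nf p) * w := by rw [mul_assoc, hvv]
          _ ≤ 2 * a * x := h11
          _ = x * (2 * a) := by ring
      exact le_of_mul_le_mul_right h13 (by positivity)
    have hcofx : ∀ p ∈ A5, cof (Nf p) ≤ x := by
      intro p hp
      have h1 := hcofv p hp
      have h2 : (cof (Nf p) : ℝ) ≤ x := by
        have h3 : (0 : ℝ) ≤ cof (Nf p) := Nat.cast_nonneg _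
        nlinarith
      exact_mod_cast h2
    have h1 : A5.card ≤ ∑ b ∈ Icc 2 x, (A5.filter (fun p => cof (Nf p) = b)).card := by
      refine (Finset.card_eq_sum_card_fiberwise (f := fun p => cof (Nf p)) (t := Icc 2 x) ?_).le
      intro p hp
      exact Finset.mem_coe.2 (Finset.mem_Icc.2 ⟨(hA5m p hp).2.2.2.2.1, hcofx p hp⟩)
    have h2 : ∀ b ∈ Icc 2 x, ((A5.filter (fun p => cof (Nf p) = b)).card : ℝ) ≤
        (1 / (b : ℝ)) * (x * (l ^ C' / L) ^ 3) := by
      intro b hb
      have hb' := Finset.mem_Icc.1 hb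
      have hb0 : (0 : ℝ) < b := by exact_mod_cast (by omega : 0 < b)
      rcases (A5.filter (fun p => cof (Nf p) = b)).eq_empty_or_nonempty with he | ⟨p0, hp0⟩
      · rw [he, Finset.card_empty, Nat.cast_zero]
        positivity
      · have h3 := htri x hx1' m b x (A5.filter (fun p => cof (Nf p) = b)) hm hmx' hb'.1 hb'.2
          le_rfl
          (by
            obtain ⟨h4, h5⟩ := Finset.mem_filter.1 hp0
            have h6 := hcofv p0 h4
            rw [h5] at h6
            have h7 : 2 * v ≤ x / b := by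
              rw [le_div_iff₀ hb0]
              linarith
            have h8 : (x / b : ℝ) < ((x / b : ℕ) : ℝ) + 1 := by
              rw [div_lt_iff₀ hb0]
              have h9 : x < (x / b + 1) * b := Nat.lt_mul_of_div_lt (Nat.lt_succ_self _) (by omega)
              exact_mod_cast h9
            have h10 : v ≤ ((x / b : ℕ) : ℝ) := by linarith
            refine le_trans ?_ h10
            rw [← hL, ← hl]
            refine Real.exp_le_exp.2 ?_
            refine div_le_div_of_nonneg_left hL0.le (by positivity) ?_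
            nlinarith)
          (by
            intro q hq
            obtain ⟨h4, h5⟩ := Finset.mem_filter.1 hq
            obtain ⟨h6, h7, h8, h9, h10, h11, h12, h13⟩ := hA5m q h4
            rw [h5] at h9 h12
            refine ⟨h7, h6, P (Nf q), P_prime h8, h9.symm, ?_⟩
            rw [← f_mul (by omega) (P_prime h8) h12, h9]
            exact h13)
        rw [← hL, ← hl] at h3
        refine h3.trans ?_
        have h4 : ((x / b : ℕ) : ℝ) ≤ x / b := Nat.cast_div_le
        calc ((x / b : ℕ) : ℝ) * (l ^ C' / L) ^ 3 ≤ (x / b) * (l ^ C' / L) ^ 3 := by gcongr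
          _ = (1 / (b : ℝ)) * (x * (l ^ C' / L) ^ 3) := by ring
    calc (A5.card : ℝ) ≤ ∑ b ∈ Icc 2 x, ((A5.filter (fun p => cof (Nf p) = b)).card : ℝ) := by
          exact_mod_cast h1
      _ ≤ ∑ b ∈ Icc 2 x, (1 / (b : ℝ)) * (x * (l ^ C' / L) ^ 3) := Finset.sum_le_sum h2
      _ = (∑ b ∈ Icc 2 x, (1 / (b : ℝ))) * (x * (l ^ C' / L) ^ 3) := by rw [Finset.sum_mul]
      _ ≤ (1 + L) * (x * (l ^ C' / L) ^ 3) :=
          mul_le_mul_of_nonneg_right (t1_harm x) (by positivity)
      _ ≤ (2 * L) * (x * (l ^ C' / L) ^ 3) := by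
          refine mul_le_mul_of_nonneg_right (by linarith) (by positivity)
      _ = 2 * l ^ (3 * C') * (x / L ^ 2) := by
          rw [div_pow, ← pow_mul, mul_comm C' 3]
          field_simp
  have hfin : (((Icc 1 x).filter (fun p => p.Prime ∧
      ((f (m * p)).Prime ∨ (f (f (m * p))).Prime))).card : ℝ) ≤
      l ^ (2 * C) * (x / L ^ 2) + (x / L ^ 2 + (2 * C7 * (x / L ^ 2) +
        (x / L ^ 2 + 2 * l ^ (3 * C') * (x / L ^ 2)))) := by
    have h1 := Finset.card_le_card hcov
    have h2 : (A1 ∪ (A2 ∪ (A3 ∪ (A4 ∪ A5)))).card ≤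
        A1.card + (A2.card + (A3.card + (A4.card + A5.card))) := by
      refine (Finset.card_union_le _ _).trans (Nat.add_le_add_left ?_ _)
      refine (Finset.card_union_le _ _).trans (Nat.add_le_add_left ?_ _)
      refine (Finset.card_union_le _ _).trans (Nat.add_le_add_left ?_ _)
      exact Finset.card_union_le _ _
    have h3 : (((Icc 1 x).filter (fun p => p.Prime ∧
        ((f (m * p)).Prime ∨ (f (f (m * p))).Prime))).card : ℝ) ≤
        A1.card + (A2.card + (A3.card + (A4.card + A5.card))) := by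
      exact_mod_cast h1.trans h2
    linarith
  refine hfin.trans ?_
  set Z : ℝ := l ^ (2 * C + 3 * C') with hZ
  have hl1 : 1 ≤ l := by linarith
  have hZ1 : 1 ≤ Z := one_le_pow₀ hl1
  have hp1 : l ^ (2 * C) ≤ Z := pow_le_pow_right₀ hl1 (by omega)
  have hp2 : l ^ (3 * C') ≤ Z := pow_le_pow_right₀ hl1 (by omega)
  have hkey : l ^ (2 * C) + (1 + (2 * C7 + (1 + 2 * l ^ (3 * C')))) ≤
      l ^ (2 * C + 3 * C' + 1) := by
    rw [pow_succ]
    have h1 : (5 + 2 * C7) * Z ≤ Z * l := by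
      rw [mul_comm]
      exact mul_le_mul_of_nonneg_left hlC (by positivity)
    nlinarith
  calc l ^ (2 * C) * (x / L ^ 2) + (x / L ^ 2 + (2 * C7 * (x / L ^ 2) +
        (x / L ^ 2 + 2 * l ^ (3 * C') * (x / L ^ 2))))
      = (l ^ (2 * C) + (1 + (2 * C7 + (1 + 2 * l ^ (3 * C'))))) * (x / L ^ 2) := by ring
    _ ≤ l ^ (2 * C + 3 * C' + 1) * (x / L ^ 2) := mul_le_mul_of_nonneg_right hkey hxL0
    _ = x * l ^ (2 * C + 3 * C' + 1) / L ^ 2 := by ring

end

end Pool.Agent.Helper2.HT
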