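import Pool.Agent.Helper2.HT.S3
import Pool.Agent.Helper40.TOT.Squares

set_option autoImplicit false

open Filter Finset

namespace Pool.Agent.Helper2.HT

open Pool.Agent.Helper44.TOT

noncomputable section

theorem harm_le (x : ℕ) : ∑ m ∈ Icc 1 x, (1 : ℝ) / m ≤ 1 + Real.log x := by
  have h := harmonic_le_one_add_log x
  rw [harmonic_eq_sum_Icc] at h
  push_cast at h
  simpa [one_div] using h

/-- naturals `≤ X` in one residue class modulo `D` -/
theorem cls (S : Finset ℕ) (X D : ℕ) (h1 : ∀ q ∈ S, q ≤ X)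
    (h2 : ∀ q ∈ S, ∀ q' ∈ S, q ≡ q' [MOD D]) : S.card ≤ X / D + 1 := by
  have hinj : Set.InjOn (fun q => q / D) S := by
    intro q hq q' hq' h
    have h3 : q % D = q' % D := h2 q hq q' hq'
    have h4 : q / D = q' / D := h
    rw [← Nat.div_add_mod q D, ← Nat.div_add_mod q' D, h3, h4]
  have hsub : S.image (fun q => q / D) ⊆ Finset.range (X / D + 1) := by
    intro y hy
    rw [Finset.mem_image] at hy
    obtain ⟨q, hq, rfl⟩ := hy
    rw [Finset.mem_range]
    exact Nat.lt_succ_of_le (Nat.div_le_div_right (h1 q hq))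
  have h5 := Finset.card_le_card hsub
  rw [Finset.card_image_of_injOn hinj, Finset.card_range] at h5
  exact h5

/-- `q ≤ X` with `D ∣ a (q + 1) - 1` -/
theorem cls_dvd (S : Finset ℕ) (X D a : ℕ) (ha : 1 ≤ a) (h1 : ∀ q ∈ S, q ≤ X)
    (h2 : ∀ q ∈ S, D ∣ a * q + (a - 1)) : S.card ≤ X / D + 1 := by
  refine cls S X D h1 fun q hq q' hq' => ?_
  have h3 : Nat.Coprime D a := by
    have h4 : Nat.gcd D a ∣ 1 := by
      have h5 : Nat.gcd D a ∣ a * q + (a - 1) := (Nat.gcd_dvd_left D a).trans (h2 q hq)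
      have h6 : Nat.gcd D a ∣ a * (q + 1) := (Nat.gcd_dvd_right D a).mul_right _
      have h7 : a * (q + 1) = a * q + (a - 1) + 1 := by
        rw [mul_add, mul_one]
        omega
      rw [h7] at h6
      exact (Nat.dvd_add_right h5).1 h6
    exact Nat.dvd_one.1 h4
  have h8 : a * q + (a - 1) ≡ a * q' + (a - 1) [MOD D] :=
    ((Nat.modEq_zero_iff_dvd).2 (h2 q hq)).trans ((Nat.modEq_zero_iff_dvd).2 (h2 q' hq')).symm
  exact Nat.ModEq.cancel_left_of_coprime h3 (Nat.ModEq.add_right_cancel' _ h8)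

theorem ev_main (A : ℕ) (K : ℝ) : ∀ᶠ x : ℕ in atTop, K ≤ ll x ∧ 2 ≤ ll x ∧ K ≤ Real.log x ∧
    1000 * ll x ≤ Real.log x / (ll x) ^ A ∧ 2 ≤ x := by
  filter_upwards [tll.eventually_ge_atTop K, tll.eventually_ge_atTop 2, tl.eventually_ge_atTop K,
    ev_pow (A + 1) 1000, eventually_ge_atTop 2] with x h1 h2 h3 h4 h5
  refine ⟨h1, h2, h3, ?_, h5⟩
  rw [le_div_iff₀ (by positivity)]
  calc 1000 * ll x * ll x ^ A = 1000 * ll x ^ (A + 1) := by ring
    _ ≤ Real.log x := h4

/-- the case of a fixed cofactor `m` -/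
theorem t3m (A : ℕ) : ∃ C X0 : ℕ, ∀ x : ℕ, X0 ≤ x → ∀ (m : ℕ) (Q : Finset ℕ), 2 ≤ m → m ≤ x →
    (∀ q ∈ Q, q.Prime ∧ m * q ≤ x ∧
      ¬ (ArithmeticFunction.sigma 1 m * q + (ArithmeticFunction.sigma 1 m - 1)).Prime ∧
      (f (ArithmeticFunction.sigma 1 m * q + (ArithmeticFunction.sigma 1 m - 1))).Prime ∧
      ((m : ℝ) * cof (ArithmeticFunction.sigma 1 m * q + (ArithmeticFunction.sigma 1 m - 1)) ≤
        x * Real.exp (-(Real.log x / (ll x) ^ A))) ∧
      x * Real.exp (-(Real.log x / (ll x) ^ A) / 2) < (m : ℝ) * q) →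
    (Q.card : ℝ) ≤ ((x : ℝ) / m) * ((1 + Real.log x) * ((ll x) ^ C / Real.log x) ^ 3 +
      3 * Real.exp (-(Real.log x / (ll x) ^ A) / 2)) := by
  obtain ⟨C, X1, htr⟩ := triples (A + 1)
  obtain ⟨X2, hev⟩ := eventually_atTop.1 (ev_main A 3)
  refine ⟨C, max X1 X2, fun x hx m Q hm hmx hQ => ?_⟩
  have hx1 : X1 ≤ x := (le_max_left _ _).trans hx
  obtain ⟨hs3, hs2, hL3, hV1, hx2⟩ := hev x ((le_max_right _ _).trans hx)
  set s : ℝ := ll x with hs
  set L : ℝ := Real.log x with hL
  set V : ℝ := L / s ^ A with hV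
  set a := ArithmeticFunction.sigma 1 m with ha
  have ha1 : m + 1 ≤ a := sig_ge hm
  have hx0 : (0 : ℝ) < x := by
    have : 0 < x := by omega
    exact_mod_cast this
  have hm0 : (0 : ℝ) < m := by
    have : 0 < m := by omega
    exact_mod_cast this
  have hm1 : (1 : ℝ) ≤ m := by
    have : 1 ≤ m := by omega
    exact_mod_cast this
  have hL0 : 0 < L := by linarith
  have hV0 : 0 < V := by nlinarith
  set N : ℕ → ℕ := fun q => a * q + (a - 1) with hN
  have hNge : ∀ q ∈ Q, m * q ≤ N q ∧ 2 ≤ N q := by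
    intro q hq
    have h1 := (hQ q hq).1.two_le
    have h2 : m * q ≤ a * q := Nat.mul_le_mul_right _ (by omega)
    have h3 : N q = a * q + (a - 1) := rfl
    refine ⟨by omega, by omega⟩
  have hfac : ∀ q ∈ Q, cof (N q) * P (N q) = N q := fun q hq => cof_mul (hNge q hq).2
  have hb2 : ∀ q ∈ Q, 2 ≤ cof (N q) := fun q hq => cof_ge (hNge q hq).2 (hQ q hq).2.2.1
  have hbx : ∀ q ∈ Q, (cof (N q) : ℝ) ≤ x * Real.exp (-V) / m := by
    intro q hq
    rw [le_div_iff₀ hm0, mul_comm]
    exact (hQ q hq).2.2.2.2.1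
  have hbx' : ∀ q ∈ Q, (cof (N q) : ℝ) ≤ x * Real.exp (-V) := by
    intro q hq
    refine (hbx q hq).trans (div_le_self (by positivity) hm1)
  have hr : ∀ q ∈ Q, Real.exp (V / 2) ≤ P (N q) := by
    intro q hq
    by_contra hcon
    push Not at hcon
    have h1 : (cof (N q) : ℝ) * P (N q) ≤ (x * Real.exp (-V)) * Real.exp (V / 2) := by
      have := hbx' q hq
      gcongr
    have h2 : (x * Real.exp (-V)) * Real.exp (V / 2) = x * Real.exp (-V / 2) := by
      rw [mul_assoc, ← Real.exp_add]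
      congr 2
      ring
    have h3 : ((cof (N q) * P (N q) : ℕ) : ℝ) = N q := by rw [hfac q hq]
    have h4 : ((m * q : ℕ) : ℝ) ≤ N q := by exact_mod_cast (hNge q hq).1
    have h5 := (hQ q hq).2.2.2.2.2
    push_cast at h3 h4
    linarith
  -- part one: `r ∣ b`
  set Q1 := Q.filter (fun q => P (N q) ∣ cof (N q)) with hQ1
  set Q2 := Q.filter (fun q => ¬ P (N q) ∣ cof (N q)) with hQ2
  have hsplit : Q.card = Q1.card + Q2.card := (Finset.card_filter_add_card_filter_not _).symm
  have hqX : ∀ q ∈ Q, q ≤ x / m := by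
    intro q hq
    rw [Nat.le_div_iff_mul_le (by omega), mul_comm]
    exact (hQ q hq).2.1
  have hpart1 : (Q1.card : ℝ) ≤ ((x : ℝ) / m) * (3 * Real.exp (-V / 2)) := by
    set k := ⌈Real.exp (V / 2)⌉₊ with hk
    set K := ⌊x * Real.exp (-V) / m⌋₊ with hK
    have hkge : Real.exp (V / 2) ≤ k := Nat.le_ceil _
    have hexp3 : (3 : ℝ) ≤ Real.exp (V / 2) := by
      have := Real.add_one_le_exp (V / 2)
      nlinarith
    have hk2 : 2 ≤ k := by
      have : (2 : ℝ) ≤ k := by linarith
      exact_mod_cast this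
    have hsub : Q1 ⊆ (Finset.Ico k (K + 1)).biUnion (fun r => Q1.filter (fun q => P (N q) = r)) := by
      intro q hq
      have hq' : q ∈ Q := (Finset.mem_filter.1 hq).1
      have hdvd := (Finset.mem_filter.1 hq).2
      rw [Finset.mem_biUnion]
      refine ⟨P (N q), ?_, Finset.mem_filter.2 ⟨hq, rfl⟩⟩
      rw [Finset.mem_Ico]
      refine ⟨Nat.ceil_le.2 (hr q hq'), Nat.lt_succ_of_le (Nat.le_floor ?_)⟩
      have h1 : P (N q) ≤ cof (N q) := Nat.le_of_dvd (by have := hb2 q hq'; omega) hdvd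
      have h2 : ((P (N q) : ℕ) : ℝ) ≤ cof (N q) := by exact_mod_cast h1
      exact h2.trans (hbx q hq')
    have hcardr : ∀ r ∈ Finset.Ico k (K + 1),
        ((Q1.filter (fun q => P (N q) = r)).card : ℝ) ≤ ((x : ℝ) / m) * (1 / (r : ℝ) ^ 2) + 1 := by
      intro r hr'
      have h1 := cls_dvd (Q1.filter (fun q => P (N q) = r)) (x / m) (r ^ 2) a (by omega)
        (fun q hq => hqX q (Finset.mem_filter.1 (Finset.mem_filter.1 hq).1).1)
        (fun q hq => by
          have hq1 := (Finset.mem_filter.1 hq).1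
          have hq2 : P (N q) = r := (Finset.mem_filter.1 hq).2
          have hq' := (Finset.mem_filter.1 hq1).1
          have hdvd := (Finset.mem_filter.1 hq1).2
          have h3 : r ^ 2 ∣ cof (N q) * P (N q) := by
            rw [sq]
            exact Nat.mul_dvd_mul (hq2 ▸ hdvd) (hq2 ▸ dvd_rfl)
          rw [hfac q hq'] at h3
          exact h3)
      have h2 : ((x / m / r ^ 2 + 1 : ℕ) : ℝ) ≤ ((x : ℝ) / m) * (1 / (r : ℝ) ^ 2) + 1 := by
        push_cast
        have h4 : ((x / m / r ^ 2 : ℕ) : ℝ) ≤ ((x / m : ℕ) : ℝ) / ((r ^ 2 : ℕ) : ℝ) := Nat.cast_div_le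
        have h5 : ((x / m : ℕ) : ℝ) ≤ (x : ℝ) / m := Nat.cast_div_le
        have h6 : ((x / m : ℕ) : ℝ) / ((r ^ 2 : ℕ) : ℝ) ≤ ((x : ℝ) / m) * (1 / (r : ℝ) ^ 2) := by
          rw [mul_one_div]
          push_cast
          gcongr
        linarith
      exact le_trans (by exact_mod_cast h1) h2
    have h1 : (Q1.card : ℝ) ≤ ∑ r ∈ Finset.Ico k (K + 1), (((x : ℝ) / m) * (1 / (r : ℝ) ^ 2) + 1) := by
      have h2 : Q1.card ≤ ∑ r ∈ Finset.Ico k (K + 1), (Q1.filter (fun q => P (N q) = r)).card :=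
        (Finset.card_le_card hsub).trans Finset.card_biUnion_le
      have h3 : (Q1.card : ℝ) ≤
          ((∑ r ∈ Finset.Ico k (K + 1), (Q1.filter (fun q => P (N q) = r)).card : ℕ) : ℝ) := by
        exact_mod_cast h2
      refine h3.trans ?_
      rw [Nat.cast_sum]
      exact Finset.sum_le_sum hcardr
    rw [Finset.sum_add_distrib, ← Finset.mul_sum, Finset.sum_const, nsmul_eq_mul, mul_one] at h1
    have h2 := Pool.Agent.Helper40.TOT.sum_inv_sq k hk2 (K + 1)
    have h3 : (1 : ℝ) / ((k : ℝ) - 1) ≤ 2 * Real.exp (-V / 2) := by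
      have h4 : Real.exp (V / 2) / 2 ≤ (k : ℝ) - 1 := by linarith
      have h5 : (1 : ℝ) / ((k : ℝ) - 1) ≤ 1 / (Real.exp (V / 2) / 2) :=
        one_div_le_one_div_of_le (by positivity) h4
      have h6 : (1 : ℝ) / (Real.exp (V / 2) / 2) = 2 * Real.exp (-V / 2) := by
        have : -V / 2 = -(V / 2) := by ring
        rw [this, Real.exp_neg]
        field_simp
      linarith
    have h7 : (((Finset.Ico k (K + 1)).card : ℕ) : ℝ) ≤ ((x : ℝ) / m) * Real.exp (-V / 2) := by
      have h8 : (((Finset.Ico k (K + 1)).card : ℕ) : ℝ) ≤ K := by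
        have : (Finset.Ico k (K + 1)).card ≤ K := by
          rw [Nat.card_Ico]
          omega
        exact_mod_cast this
      have h9 : (K : ℝ) ≤ x * Real.exp (-V) / m := Nat.floor_le (by positivity)
      have h10 : x * Real.exp (-V) / m ≤ ((x : ℝ) / m) * Real.exp (-V / 2) := by
        have h11 : Real.exp (-V) ≤ Real.exp (-V / 2) := Real.exp_le_exp.2 (by linarith)
        calc x * Real.exp (-V) / m = ((x : ℝ) / m) * Real.exp (-V) := by ring
          _ ≤ ((x : ℝ) / m) * Real.exp (-V / 2) := by gcongr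
      linarith
    have h12 : ((x : ℝ) / m) * ∑ r ∈ Finset.Ico k (K + 1), (1 / (r : ℝ) ^ 2) ≤
        ((x : ℝ) / m) * (2 * Real.exp (-V / 2)) := by
      have h13 := h2.trans h3
      gcongr
    calc (Q1.card : ℝ) ≤ _ := h1
      _ ≤ ((x : ℝ) / m) * (2 * Real.exp (-V / 2)) + ((x : ℝ) / m) * Real.exp (-V / 2) :=
          add_le_add h12 h7
      _ = ((x : ℝ) / m) * (3 * Real.exp (-V / 2)) := by ring
  -- part two: `¬ r ∣ b`
  have hpart2 : (Q2.card : ℝ) ≤ ((x : ℝ) / m) * ((1 + L) * (s ^ C / L) ^ 3) := by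
    have hsub : Q2 ⊆ (Finset.Icc 1 x).biUnion (fun b => Q2.filter (fun q => cof (N q) = b)) := by
      intro q hq
      have hq' : q ∈ Q := (Finset.mem_filter.1 hq).1
      rw [Finset.mem_biUnion]
      refine ⟨cof (N q), ?_, Finset.mem_filter.2 ⟨hq, rfl⟩⟩
      rw [Finset.mem_Icc]
      refine ⟨by have := hb2 q hq'; omega, ?_⟩
      have h1 := hbx' q hq'
      have h2 : x * Real.exp (-V) ≤ (x : ℝ) := by
        have : Real.exp (-V) ≤ 1 := Real.exp_le_one_iff.2 (by linarith)
        nlinarith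
      exact_mod_cast h1.trans h2
    have hcardb : ∀ b ∈ Finset.Icc 1 x,
        ((Q2.filter (fun q => cof (N q) = b)).card : ℝ) ≤
          ((x : ℝ) / m) * (1 / (b : ℝ)) * (s ^ C / L) ^ 3 := by
      intro b hb
      rw [Finset.mem_Icc] at hb
      have hb0 : (0 : ℝ) < b := by
        have : 0 < b := by omega
        exact_mod_cast this
      rcases (Q2.filter (fun q => cof (N q) = b)).eq_empty_or_nonempty with he | ⟨q0, hq0⟩
      · rw [he, Finset.card_empty, Nat.cast_zero]
        positivity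
      · have hq01 := (Finset.mem_filter.1 hq0).1
        have hq02 : cof (N q0) = b := (Finset.mem_filter.1 hq0).2
        have hq0' := (Finset.mem_filter.1 hq01).1
        have hb2' : 2 ≤ b := hq02 ▸ hb2 q0 hq0'
        have hmb : (m : ℝ) * b ≤ x * Real.exp (-V) := by
          have h1 : (m : ℝ) * cof (N q0) ≤ x * Real.exp (-V) := (hQ q0 hq0').2.2.2.2.1
          rwa [hq02] at h1
        have hlen : Real.exp (L / s ^ (A + 1)) ≤ ((x / m / b : ℕ) : ℝ) := by
          have h1 : Real.exp V ≤ (x : ℝ) / (m * b) := by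
            rw [le_div_iff₀ (by positivity)]
            calc Real.exp V * (m * b) ≤ Real.exp V * (x * Real.exp (-V)) := by gcongr
              _ = x := by
                  rw [mul_left_comm, ← Real.exp_add]
                  simp
          have h2 : (x : ℝ) / (m * b) < ((x / m / b : ℕ) : ℝ) + 1 := by
            rw [Nat.div_div_eq_div_mul]
            have h3 := Nat.lt_floor_add_one ((x : ℝ) / ((m * b : ℕ) : ℝ))
            rw [Nat.floor_div_eq_div] at h3
            push_cast at h3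
            exact h3
          have h4 : L / s ^ (A + 1) ≤ V / 2 := by
            rw [pow_succ, ← div_div, ← hV]
            exact div_le_div_of_nonneg_left hV0.le (by norm_num) hs2
          have h5 : Real.exp (V / 2) + 1 ≤ Real.exp V := by
            have h6 : Real.exp V = Real.exp (V / 2) * Real.exp (V / 2) := by
              rw [← Real.exp_add]
              congr 1
              ring
            have h7 : (2 : ℝ) ≤ Real.exp (V / 2) := by
              have := Real.add_one_le_exp (V / 2)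
              nlinarith
            rw [h6]
            nlinarith
          have h8 := Real.exp_le_exp.2 h4
          linarith
        have h1 := htr x hx1 m b (x / m) (Q2.filter (fun q => cof (N q) = b)) hm hmx hb2' hb.2
          (Nat.div_le_self _ _) hlen
          (by
            intro q hq
            have hq1 := (Finset.mem_filter.1 hq).1
            have hq2 : cof (N q) = b := (Finset.mem_filter.1 hq).2
            have hq' := (Finset.mem_filter.1 hq1).1
            have hnd := (Finset.mem_filter.1 hq1).2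
            refine ⟨hqX q hq', (hQ q hq').1, P (N q), P_prime (hNge q hq').2, ?_, ?_⟩
            · have := hfac q hq'
              rw [hq2] at this
              exact this.symm
            · have h2 := f_mul (m := cof (N q)) (q := P (N q)) (by have := hb2 q hq'; omega)
                (P_prime (hNge q hq').2) hnd
              rw [hfac q hq', hq2] at h2
              rw [← h2]
              exact (hQ q hq').2.2.2.1)
        refine h1.trans ?_
        have h2 : ((x / m / b : ℕ) : ℝ) ≤ ((x : ℝ) / m) * (1 / (b : ℝ)) := by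
          have h4 : ((x / m / b : ℕ) : ℝ) ≤ ((x / m : ℕ) : ℝ) / (b : ℝ) := Nat.cast_div_le
          have h5 : ((x / m : ℕ) : ℝ) ≤ (x : ℝ) / m := Nat.cast_div_le
          have h6 : ((x / m : ℕ) : ℝ) / (b : ℝ) ≤ ((x : ℝ) / m) * (1 / (b : ℝ)) := by
            rw [mul_one_div]
            gcongr
          linarith
        gcongr
    have h2 : Q2.card ≤ ∑ b ∈ Finset.Icc 1 x, (Q2.filter (fun q => cof (N q) = b)).card :=
      (Finset.card_le_card hsub).trans Finset.card_biUnion_le
    have h3 : (Q2.card : ℝ) ≤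
        ((∑ b ∈ Finset.Icc 1 x, (Q2.filter (fun q => cof (N q) = b)).card : ℕ) : ℝ) := by
      exact_mod_cast h2
    refine h3.trans ?_
    rw [Nat.cast_sum]
    refine (Finset.sum_le_sum hcardb).trans ?_
    rw [← Finset.sum_mul, ← Finset.mul_sum, mul_assoc]
    have h4 := harm_le x
    gcongr
  have h1 : (Q.card : ℝ) = Q1.card + Q2.card := by exact_mod_cast hsplit
  rw [h1]
  calc (Q1.card : ℝ) + Q2.card ≤ ((x : ℝ) / m) * (3 * Real.exp (-V / 2)) +
        ((x : ℝ) / m) * ((1 + L) * (s ^ C / L) ^ 3) := add_le_add hpart1 hpart2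
    _ = ((x : ℝ) / m) * ((1 + L) * (s ^ C / L) ^ 3 + 3 * Real.exp (-V / 2)) := by ring

end

end Pool.Agent.Helper2.HT
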